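import Pool.Agent.W646.CI.Defs

/-!
# MP_06ac62_an, Q1: the constant `C_∞` equals `-2`.  Statements of the parts.
-/

set_option autoImplicit false

namespace Pool.Agent.W646.CI

open MeasureTheory Filter Topology Set

noncomputable section

/-! ### Kernel -/

/-- Moving a zero: one sided bound. -/
def S_EP : Prop :=
  ∃ C > (0 : ℝ), ∀ (p : ℕ) (u η : ℂ), u ≠ 1 → 8 * ‖η‖ * (p + 1) ≤ 1 →
    ‖MinMod.Ep p (u * Complex.exp η)‖ ≤ ‖MinMod.Ep p u‖ *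
      Real.exp (C * ‖η‖ * (p + 1) * ‖u‖ ^ (p + 1) * (1 + 1 / ‖1 - u‖))

/-- Size of the logarithm of the primary factor. -/
def S_EPB : Prop :=
  ∀ (p : ℕ) (u : ℂ), u ≠ 1 →
    |Real.log ‖MinMod.Ep p u‖| ≤ 3 * (p + 2) * ‖u‖ ^ (p + 1) * (1 + 1 / ‖1 - u‖)

/-- Local integrability of the logarithm. -/
def S_LOGI : Prop :=
  ∀ (z : ℂ) (A : Set ℂ), Bornology.IsBounded A →
    IntegrableOn (fun s : ℂ => Real.log ‖1 - z * Complex.exp (-s)‖) A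

/-- Local integrability of the reciprocal. -/
def S_RECI : Prop :=
  ∀ (z : ℂ) (A : Set ℂ), Bornology.IsBounded A →
    IntegrableOn (fun s : ℂ => 1 / ‖1 - z * Complex.exp (-s)‖) A

/-- Uniform bound of the reciprocal over one shell. -/
def S_XIB : Prop :=
  ∃ C > (0 : ℝ), ∀ (K m : ℕ) (z : ℂ), 3 ≤ K →
    ∫ s in Om K m (m + 1), 1 / ‖1 - z * Complex.exp (-s)‖ ≤ C

/-- One cell: the mass `G` on `T` is replaced by zeros at the point `s0`. -/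
def S_CELL : Prop :=
  ∃ C > (0 : ℝ), ∀ (p : ℕ) (δ : ℝ) (T : Set ℂ) (s0 : ℂ) (G : ℂ → ℝ) (B : ℝ),
    0 < δ → 8 * δ * (p + 1) ≤ 1 → MeasurableSet T → (∀ s ∈ T, ‖s - s0‖ ≤ δ) →
    Measurable G → (∀ s, 0 ≤ G s) → (∀ s, G s ≤ B) → 0 < ∫ s in T, G s →
    ∃ F : ℂ → ℂ, Differentiable ℂ F ∧ F 0 = 1 ∧ ∀ z : ℂ,
      ‖F z‖ ≤ Real.exp ((∫ s in T, G s * Real.log ‖1 - z * Complex.exp (-s)‖) +
        (C * δ + C / ∫ s in T, G s) * ∫ s in T, G s * Xi p (z * Complex.exp (-s)))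

/-- One well. -/
def S_WELL : Prop :=
  ∀ (K : ℕ) (R : ℝ) (j : ℕ) (z : ℂ), 3 ≤ K → 0 < R → R < 1 → 1 ≤ j →
    ‖1 - z * Complex.exp (-sj K j)‖ ≤ Real.exp ((1 / (2 * R ^ 2 * ej K j)) *
      ((1 / (2 * Real.pi)) *
        ∫ s in DD K R j, den K j s.re * Real.log ‖1 - z * Complex.exp (-s)‖))

/-! ### Geometry of the wells -/

/-- The wells are disjoint and inside the sheared strip. -/
def S_DISJ : Prop :=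
  ∀ (K : ℕ) (R : ℝ), 3 ≤ K → 0 < R → R < 1 → ∃ T1 : ℕ, 1 ≤ T1 ∧
    (∀ j : ℕ, (T1 : ℝ) ≤ tj K j → ∀ s ∈ DD K R j,
      |s.re - tj K j| < 1 ∧ |s.im - 8 * s.re ^ (K - 1)| < Real.pi) ∧
    (∀ i j : ℕ, i ≠ j → (T1 : ℝ) ≤ tj K i → (T1 : ℝ) ≤ tj K j →
      Disjoint (DD K R i) (DD K R j))

/-- Comparison of the densities. -/
def S_DEN : Prop :=
  ∀ (K : ℕ) (R ε : ℝ), 3 ≤ K → 0 < R → R < 1 → 0 < ε → ∃ T1 : ℕ,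
    ∀ j : ℕ, (T1 : ℝ) ≤ tj K j → ∀ s ∈ DD K R j, den K j s.re ≤ (1 + ε) * rho K s.re

/-- The remaining density. -/
def S_GAM : Prop :=
  ∀ (K : ℕ) (R ε : ℝ), 3 ≤ K → 0 < R → R < 1 → 0 < ε → ε ≤ 1 / 2 → ∃ T1 : ℕ, 1 ≤ T1 ∧
    ∀ T0 n : ℕ, T1 ≤ T0 →
      (∀ j ∈ WW K T0 n, DD K R j ⊆ Om K T0 n) ∧
      Measurable (GG K R ε T0 n) ∧ (∀ s, s ∉ Om K T0 n → GG K R ε T0 n s = 0) ∧
      (∀ s ∈ Om K T0 n, ε / 2 * rho K s.re / (2 * Real.pi) ≤ GG K R ε T0 n s ∧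
        GG K R ε T0 n s ≤ rho K s.re / (2 * Real.pi))

/-! ### The radial potential -/

/-- Radial symmetry. -/
def S_RAD1 : Prop :=
  ∀ (K T0 n : ℕ) (z : ℂ), 3 ≤ K → 1 ≤ T0 → T0 ≤ n → z ≠ 0 →
    (1 / (2 * Real.pi)) * ∫ s in Om K T0 n, rho K s.re * Real.log ‖1 - z * Complex.exp (-s)‖ =
      ∫ t in (T0 : ℝ)..n, rho K t * max 0 (Real.log ‖z‖ - t)

/-- The one dimensional integral. -/
def S_RAD2 : Prop :=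
  ∀ (K T0 n : ℕ) (τ : ℝ), 3 ≤ K → 1 ≤ T0 → T0 ≤ n → 0 ≤ τ →
    ∫ t in (T0 : ℝ)..n, rho K t * max 0 (τ - t) ≤ Real.exp (τ ^ K)

/-! ### Cells -/

/-- The cells form a partition. -/
def S_GEO : Prop :=
  ∀ (K : ℕ), 3 ≤ K →
    (∀ m i l : ℕ, MeasurableSet (cell K m i l)) ∧
    (∀ T0 n : ℕ, T0 ≤ n → Om K T0 n = ⋃ m ∈ Finset.Ico T0 n, ⋃ i ∈ Finset.range (LL K m),
      ⋃ l ∈ Finset.range (LL K m), cell K m i l) ∧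
    (∀ m i l m' i' l' : ℕ, i < LL K m → l < LL K m → i' < LL K m' → l' < LL K m' →
      (m, i, l) ≠ (m', i', l') → Disjoint (cell K m i l) (cell K m' i' l'))

/-- The area of the cells. -/
def S_AREA : Prop :=
  ∀ (K : ℕ), 3 ≤ K → ∀ m i l : ℕ,
    volume (cell K m i l) = ENNReal.ofReal (2 * Real.pi / (LL K m : ℝ) ^ 2)

/-- Diameter, genus and oscillation. -/
def S_GEO2 : Prop :=
  ∀ (K : ℕ), 3 ≤ K → ∀ m i l : ℕ, i < LL K m → l < LL K m →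
    (∀ s ∈ cell K m i l, ‖s - cpt K m i l‖ ≤ dl K m) ∧
    8 * dl K m * ((pp K m i : ℝ) + 1) ≤ 1 ∧
    (1 ≤ m → ∀ s ∈ cell K m i l, ∀ s' ∈ cell K m i l, rho K s.re ≤ 2 * rho K s'.re)

/-- The exponent inequality. -/
def S_XI : Prop :=
  ∀ K : ℕ, 3 ≤ K → ∃ C > (0 : ℝ), ∀ m i : ℕ, 1 ≤ m → i < LL K m → ∀ t : ℝ,
    (m : ℝ) + i / LL K m ≤ t → t < (m : ℝ) + (i + 1) / LL K m → ∀ τ : ℝ, 1 ≤ τ →
      ((pp K m i : ℝ) + 2) * Real.exp (((pp K m i : ℝ) + 1) * (τ - t)) * rho K t ≤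
        C * ((m : ℝ) + 2) ^ (3 * K) * Real.exp (τ ^ K - (τ - m) ^ 2 / 4) ∧
      ((pp K m i : ℝ) + 2) * Real.exp (((pp K m i : ℝ) + 1) * (τ - t)) ≤
        C * ((m : ℝ) + 2) ^ (3 * K) * Real.exp (τ ^ K - (m : ℝ) ^ K - (τ - m) ^ 2 / 4)

/-- The total error tends to zero. -/
def S_SUM : Prop :=
  ∀ (K : ℕ) (C : ℝ), 3 ≤ K → 0 < C → ∃ η : ℝ → ℝ, Tendsto η atTop (𝓝 0) ∧
    (∀ τ, 0 ≤ η τ) ∧ (∃ M, ∀ τ, η τ ≤ M) ∧ ∀ (τ : ℝ) (N : Finset ℕ),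
      ∑ m ∈ N, C * (dl K m + (LL K m : ℝ) ^ 2 * Real.exp (-(m : ℝ) ^ K)) *
        ((m : ℝ) + 2) ^ (3 * K) * Real.exp (-(τ - m) ^ 2 / 4) ≤ η τ

/-! ### The entire function -/

/-- The growth bound. -/
def bd (K : ℕ) (η : ℝ → ℝ) (z : ℂ) : ℝ :=
  Real.exp ((1 + η (Real.log ‖z‖)) * Real.exp (Real.log ‖z‖ ^ K))

/-- The approximating functions. -/
def S_POLY : Prop :=
  ∀ (K : ℕ) (R ε : ℝ), 3 ≤ K → 0 < R → R < 1 → 0 < ε → ε ≤ 1 / 2 →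
    ∃ (T0 : ℕ) (η : ℝ → ℝ), Tendsto η atTop (𝓝 0) ∧ (∀ τ, 0 ≤ η τ) ∧ (∃ M, ∀ τ, η τ ≤ M) ∧
    ∀ n : ℕ, ∃ f : ℂ → ℂ, Differentiable ℂ f ∧ f 0 = 1 ∧
      (∀ z : ℂ, Real.exp 1 ≤ ‖z‖ → ‖f z‖ ≤ bd K η z) ∧
      ∀ j : ℕ, (T0 : ℝ) + 1 ≤ tj K j → tj K j ≤ (n : ℝ) - 1 →
        ∃ g : ℂ → ℂ, Differentiable ℂ g ∧
          ∀ z, f z = (z - Complex.exp (sj K j)) ^ (mj K R ε j) * g z

/-- The limit function. -/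
def S_LIM : Prop :=
  ∀ (K : ℕ) (R ε : ℝ), 3 ≤ K → 0 < R → R < 1 → 0 < ε → ε ≤ 1 / 2 →
    ∃ (T0 : ℕ) (η : ℝ → ℝ), Tendsto η atTop (𝓝 0) ∧ (∀ τ, 0 ≤ η τ) ∧ (∃ M, ∀ τ, η τ ≤ M) ∧
    ∃ f : ℂ → ℂ, Differentiable ℂ f ∧ f 0 = 1 ∧
      (∀ z : ℂ, Real.exp 1 ≤ ‖z‖ → ‖f z‖ ≤ bd K η z) ∧
      ∀ j : ℕ, (T0 : ℝ) + 1 ≤ tj K j → ∀ ρ > (0 : ℝ), ∀ B : ℝ,
        (∀ w : ℂ, ‖w - Complex.exp (sj K j)‖ = ρ → ‖f w‖ ≤ B) →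
        ∀ z : ℂ, ‖z - Complex.exp (sj K j)‖ ≤ ρ →
          ‖f z‖ ≤ (‖z - Complex.exp (sj K j)‖ / ρ) ^ (mj K R ε j) * B

/-- The extremal functions. -/
def S_FINU : Prop :=
  ∀ ε : ℝ, 0 < ε → ε < 1 → ∃ f : ℂ → ℂ, Differentiable ℂ f ∧ order f = ⊤ ∧
    ∀ᶠ r : ℝ in atTop, Real.exp 1 < MinMod.aF f r ∧ ∃ z : ℂ, ‖z‖ = r ∧
      ‖f z‖ ≤ Real.exp (-((2 - ε) *
        (MinMod.aF f r * Real.log (Real.log (MinMod.aF f r)))))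

/-! ### The lower estimate -/

/-- Effective peak estimate. -/
def S_PEAK : Prop :=
  ∀ ε : ℝ, 0 < ε → ε ≤ 1 → ∃ lam0 > (1 : ℝ), ∃ D ≥ (1 : ℝ), ∀ f : ℂ → ℂ, Differentiable ℂ f →
    (∃ z, f z ≠ 0) → ∃ c > (0 : ℝ), ∀ lam ≥ lam0, ∀ r A : ℝ, Real.exp (HH D lam) ≤ r →
    c * lam ^ 2 ≤ A →
    (∀ s : ℝ, |s| ≤ HH D lam → ∀ z : ℂ, ‖z‖ = r * Real.exp s →
      ‖f z‖ ≤ Real.exp (A * Real.exp (lam * s + ε / 20))) →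
    ∀ T : ℝ, (∀ s : ℝ, 0 ≤ s → s ≤ HH D lam →
      ∃ z : ℂ, ‖z‖ = r * Real.exp s ∧ ‖f z‖ ≤ Real.exp (-(T * A))) →
    T ≤ (2 + ε) * Real.log lam

/-- Growth lemma: points of regular growth. -/
def S_GROW : Prop :=
  ∀ (L : ℝ → ℝ) (τ0 : ℝ), MonotoneOn L (Ici τ0) → (∀ M : ℝ, ∃ᶠ τ in atTop, M * τ ≤ L τ) →
    ∀ (q : ℕ) (lam0 D κ τ1 : ℝ), 1 ≤ q → 1 < lam0 → 1 ≤ D → 0 < κ →
      ∃ τ ≥ τ1, τ1 ≤ L τ ∧ ∃ lam ≥ lam0, lam ^ q ≤ L τ ^ (q + 1) ∧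
        ∀ s : ℝ, |s| ≤ HH D lam → L (τ + s) ≤ L τ + lam * s + κ

/-- The lower estimate. -/
def S_LOWF : Prop :=
  ∀ f : ℂ → ℂ, Differentiable ℂ f → order f = ⊤ → ∀ ε : ℝ, 0 < ε →
    (Tendsto (fun r => MinMod.aF f r) atTop atTop) ∧
    ¬ ∀ᶠ r : ℝ in atTop, ∃ z : ℂ, ‖z‖ = r ∧
      ‖f z‖ ≤ Real.exp (-((2 + ε) * (MinMod.aF f r * Real.log (Real.log (MinMod.aF f r)))))

/-- The result. -/
def S_FIN : Prop := CInf = -2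

end

end Pool.Agent.W646.CI
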