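import Pool.Agent.W646.CI.Stm
import Pool.Agent.MP06ac62.L3
import Pool.Agent.MP06ac62.LS
import Pool.Agent.MP06ac62.L4b

/-!
# Project CI: effective peak estimate (after `MinMod.L4b`)
-/

set_option autoImplicit false
set_option maxHeartbeats 1000000

namespace Pool.Agent.W646.CI.Pk

open MinMod MinMod.L3 MinMod.LS
open Metric MeasureTheory
open MinMod.L4b (Fq Fq_an pt_norm Fq_polar grow_aux vol_aux)
open Pool.Agent.W646.CI

theorem log_aux (lam δ x : ℝ) (hlam : 0 < lam) (hδ : 0 < δ) (hδ1 : δ ≤ 1) (h1 : δ ^ 2 / 2 ≤ x)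
    (h2 : x ≤ 2) :
    |2 / lam * Real.log x| ≤ 2 / lam * Real.log (2 / δ ^ 2) := by
  have hx : 0 < x := lt_of_lt_of_le (by positivity) h1
  have hd2 : δ ^ 2 ≤ 1 := by nlinarith
  have hL1 : Real.log x ≤ Real.log (2 / δ ^ 2) := by
    apply Real.log_le_log hx
    rw [le_div_iff₀ (by positivity)]
    calc x * δ ^ 2 ≤ 2 * 1 := mul_le_mul h2 hd2 (by positivity) (by norm_num)
      _ = 2 := by norm_num
  have hL2 : -Real.log (2 / δ ^ 2) ≤ Real.log x := by
    rw [← Real.log_inv]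
    apply Real.log_le_log (by positivity)
    rw [inv_div]
    exact h1
  have h3 : |Real.log x| ≤ Real.log (2 / δ ^ 2) := abs_le.2 ⟨hL2, hL1⟩
  have h4 : 0 < 2 / lam := by positivity
  rw [abs_mul, abs_of_pos h4]
  exact mul_le_mul_of_nonneg_left h3 h4.le

theorem sphere_aux (f : ℂ → ℂ) (A κ lam δ r th : ℝ) (hlam : 0 < lam) (hδ : 0 < δ) (hδ1 : δ ≤ 1)
    (hr : 0 ≤ r) (H : ℝ) (hH : 2 / lam * Real.log (2 / δ ^ 2) ≤ H)
    (hg : ∀ s : ℝ, |s| ≤ H → ∀ z : ℂ, ‖z‖ = r * Real.exp s →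
      ‖f z‖ ≤ Real.exp (A * Real.exp (lam * s + κ))) :
    ∀ w ∈ sphere (1:ℂ) (Real.sqrt (1 - δ ^ 2)),
      ‖Fq f r th lam w‖ ≤ Real.exp (A * Real.exp κ * ‖w‖ ^ 2) := by
  intro w hw
  rw [mem_sphere, dist_eq_norm] at hw
  have hR : Real.sqrt (1 - δ ^ 2) ≤ 1 - δ ^ 2 / 2 := by
    rw [Real.sqrt_le_iff]
    constructor
    · nlinarith
    · nlinarith [sq_nonneg (δ ^ 2)]
  have h1 : δ ^ 2 / 2 ≤ ‖w‖ := by
    have h3 : ‖(1:ℂ)‖ ≤ ‖w‖ + ‖w - 1‖ := by
      calc ‖(1:ℂ)‖ = ‖w - (w - 1)‖ := by congr 1; ring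
        _ ≤ ‖w‖ + ‖w - 1‖ := norm_sub_le _ _
    rw [norm_one] at h3
    linarith
  have h2 : ‖w‖ ≤ 2 := by
    have h3 : ‖w‖ ≤ ‖w - 1‖ + ‖(1:ℂ)‖ := by
      calc ‖w‖ = ‖(w - 1) + 1‖ := by congr 1; ring
        _ ≤ ‖w - 1‖ + ‖(1:ℂ)‖ := norm_add_le _ _
    rw [norm_one] at h3
    have : 0 ≤ δ ^ 2 := by positivity
    linarith
  have hw0 : 0 < ‖w‖ := lt_of_lt_of_le (by positivity) h1
  apply grow_aux f A κ lam H r hlam hg ‖w‖ hw0 ((log_aux lam δ ‖w‖ hlam hδ hδ1 h1 h2).trans hH)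
  exact pt_norm r th lam hr w

theorem nonleak_aux (f : ℂ → ℂ) (c : ℝ)
    (hrot : ∀ (N : ℕ), 0 < N → ∀ (r a κ θ0 : ℝ), 1 ≤ r →
      (∀ z : ℂ, ‖z‖ = r → ‖f z‖ ≤ Real.exp a) →
      (∀ θ : ℝ, |θ - θ0| ≤ Real.pi / N → ‖f (r * Complex.exp (θ * Complex.I))‖ ≤ Real.exp (-κ)) →
      c ^ N ≤ Real.exp ((N - 1) * a - κ))
    (A0 A κ kd lam δ r th : ℝ) (N : ℕ) (hκ : 0 < κ) (hkd : 0 < kd) (hlam : 4 ≤ lam)
    (hδ : 0 < δ) (hδ1 : δ ≤ 1)
    (hδ2 : δ ≤ kd / (4 * (2 * lam + 1))) (hN1 : 2 * lam ≤ N) (hN2 : (N:ℝ) ≤ 2 * lam + 1)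
    (hA0 : Real.exp (-(kd * A0 * δ / 2)) < c ^ N) (hA01 : 1 ≤ A0) (hA : A0 ≤ A)
    (H : ℝ) (hH : 2 / lam * Real.log (2 / δ ^ 2) ≤ H) (hr : Real.exp H ≤ r)
    (hg : ∀ s : ℝ, |s| ≤ H → ∀ z : ℂ, ‖z‖ = r * Real.exp s →
      ‖f z‖ ≤ Real.exp (A * Real.exp (lam * s + κ))) :
    ∃ φ : ℝ, |φ| ≤ Real.pi / 4 ∧
      Real.exp (-(kd * (A * Real.exp κ) * δ)) <
        ‖Fq f r th lam (δ * Complex.exp (φ * Complex.I))‖ := by
  by_contra hcon
  push Not at hcon
  have hlam0 : 0 < lam := by linarith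
  have hpi := Real.pi_pos
  have hs : |2 / lam * Real.log δ| ≤ H := by
    refine le_trans ?_ hH
    apply log_aux lam δ δ hlam0 hδ hδ1
    · nlinarith
    · linarith
  have hNpos : (0:ℝ) < N := by linarith
  have hNpos' : 0 < N := by exact_mod_cast hNpos
  have hr2 : 1 ≤ r * Real.exp (2 / lam * Real.log δ) := by
    have h1 : Real.exp H * Real.exp (2 / lam * Real.log δ) ≤
        r * Real.exp (2 / lam * Real.log δ) :=
      mul_le_mul_of_nonneg_right hr (Real.exp_pos _).le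
    rw [← Real.exp_add] at h1
    have h2 := (abs_le.1 hs).1
    have h3 : 1 ≤ Real.exp (H + 2 / lam * Real.log δ) :=
      Real.one_le_exp (by linarith)
    linarith
  have h := hrot N hNpos' (r * Real.exp (2 / lam * Real.log δ)) (A * Real.exp κ * δ ^ 2)
    (kd * (A * Real.exp κ) * δ) th hr2
    (fun z hz => grow_aux f A κ lam _ r hlam0 hg δ hδ hs z hz) (by
      intro θ hθ
      have hφ : |(θ - th) * lam / 2| ≤ Real.pi / 4 := by
        rw [abs_div, abs_mul, abs_of_pos hlam0, abs_of_pos (by norm_num : (0:ℝ) < 2)]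
        have h1 : |θ - th| * N ≤ Real.pi := by
          rw [le_div_iff₀ hNpos] at hθ
          exact hθ
        have h2 : |θ - th| * (2 * lam) ≤ Real.pi :=
          le_trans (mul_le_mul_of_nonneg_left hN1 (abs_nonneg _)) h1
        linarith
      have h1 := hcon _ hφ
      have h2 := abs_le.1 hφ
      rw [Fq_polar f r th lam δ _ hδ (by linarith) (by linarith)] at h1
      have e : th + 2 / lam * ((θ - th) * lam / 2) = θ := by
        field_simp
        ring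
      rw [e] at h1
      exact h1)
  have hek : 1 ≤ Real.exp κ := by
    exact Real.one_le_exp hκ.le
  have hA2 : A0 ≤ A * Real.exp κ := by nlinarith
  have hA2pos : 0 < A * Real.exp κ := by linarith
  have hkey : (N - 1 : ℝ) * δ ≤ kd / 2 := by
    rw [le_div_iff₀ (by positivity)] at hδ2
    nlinarith
  have hexp : ((N:ℝ) - 1) * (A * Real.exp κ * δ ^ 2) - kd * (A * Real.exp κ) * δ ≤
      -(kd * A0 * δ / 2) := by
    have h1 : ((N:ℝ) - 1) * (A * Real.exp κ * δ ^ 2) ≤ kd / 2 * (A * Real.exp κ * δ) := by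
      have := mul_le_mul_of_nonneg_right hkey (by positivity : 0 ≤ A * Real.exp κ * δ)
      calc ((N:ℝ) - 1) * (A * Real.exp κ * δ ^ 2) = (N - 1 : ℝ) * δ * (A * Real.exp κ * δ) := by
            ring
        _ ≤ _ := this
    have h2 : kd / 2 * (A0 * δ) ≤ kd / 2 * (A * Real.exp κ * δ) := by
      apply mul_le_mul_of_nonneg_left _ (by positivity)
      exact mul_le_mul_of_nonneg_right hA2 hδ.le
    nlinarith
  have h5 := Real.exp_le_exp.2 hexp
  linarith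

theorem cover_aux (f : ℂ → ℂ) (lam ρ r H B : ℝ) (K : ℕ) (hK : 2 * Real.pi * lam / ρ ≤ K)
    (hlam : 4 ≤ lam) (hρ : 0 < ρ) (hρ1 : ρ ≤ 1 / 8) (hH : 2 / lam ≤ H)
    (hT : ∀ s : ℝ, 0 ≤ s → s ≤ H → ∃ z : ℂ, ‖z‖ = r * Real.exp s ∧ ‖f z‖ ≤ B)
    (x : ℝ) (hx1 : 1 ≤ x) (hx2 : x ≤ 1 + ρ / 2) :
    ∃ c0 < K, ∃ w : ℂ, ‖w‖ = x ∧ ‖w - 1‖ ≤ ρ ∧
      ‖Fq f r (2 * Real.pi * c0 / K) lam w‖ ≤ B := by
  have hpi := Real.pi_pos
  have hpi2 := Real.pi_gt_three
  have hx0 : 0 < x := by linarith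
  have hlam0 : 0 < lam := by linarith
  have hl0 : 0 ≤ Real.log x := Real.log_nonneg hx1
  have hl1 : Real.log x ≤ 1 := by
    have := Real.log_le_sub_one_of_pos hx0
    linarith
  have h2l0 : 0 < 2 / lam := by positivity
  obtain ⟨z, hz, hfz⟩ := hT (2 / lam * Real.log x) (by positivity) (by nlinarith)
  have hKpos : (0:ℝ) < K := lt_of_lt_of_le (by positivity) hK
  have hKpos' : (0:ℤ) < (K:ℤ) := by exact_mod_cast hKpos
  have hround := abs_sub_round ((K:ℝ) * Complex.arg z / (2 * Real.pi))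
  generalize round ((K:ℝ) * Complex.arg z / (2 * Real.pi)) = m at hround
  have hmod := Int.emod_nonneg m hKpos'.ne'
  have hmod2 := Int.emod_lt_of_pos m hKpos'
  have hdecomp := Int.mul_ediv_add_emod m (K:ℤ)
  generalize hkdef : m / (K:ℤ) = k at hdecomp
  generalize hcdef : m % (K:ℤ) = c1 at hdecomp hmod hmod2
  obtain ⟨c0, rfl⟩ := Int.eq_ofNat_of_zero_le hmod
  have hdec : (K:ℝ) * k + c0 = m := by exact_mod_cast hdecomp
  have hα : |Complex.arg z - 2 * Real.pi * m / K| ≤ Real.pi / K := by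
    have e : Complex.arg z - 2 * Real.pi * m / K =
        (2 * Real.pi / K) * ((K:ℝ) * Complex.arg z / (2 * Real.pi) - m) := by
      field_simp
    rw [e, abs_mul, abs_of_pos (by positivity : 0 < 2 * Real.pi / (K:ℝ))]
    calc 2 * Real.pi / K * |(K:ℝ) * Complex.arg z / (2 * Real.pi) - m|
        ≤ 2 * Real.pi / K * (1 / 2) := mul_le_mul_of_nonneg_left hround (by positivity)
      _ = Real.pi / K := by ring
  have hφ : |lam * (Complex.arg z - 2 * Real.pi * m / K) / 2| ≤ ρ / 4 := by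
    rw [abs_div, abs_mul, abs_of_pos hlam0, abs_of_pos (by norm_num : (0:ℝ) < 2)]
    have h1 : 2 * Real.pi * lam ≤ K * ρ := by
      rw [div_le_iff₀ hρ] at hK
      exact hK
    have h2 : |Complex.arg z - 2 * Real.pi * m / K| * K ≤ Real.pi := by
      rw [le_div_iff₀ hKpos] at hα
      exact hα
    have h3 : lam * |Complex.arg z - 2 * Real.pi * m / K| * K ≤ lam * Real.pi := by
      rw [mul_assoc]
      exact mul_le_mul_of_nonneg_left h2 hlam0.le
    have h4 : lam * |Complex.arg z - 2 * Real.pi * m / K| * K ≤ ρ / 2 * K := by nlinarith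
    have h5 := le_of_mul_le_mul_right h4 hKpos
    linarith
  generalize hφdef : lam * (Complex.arg z - 2 * Real.pi * m / K) / 2 = φ at hφ
  have hφ2 := abs_le.1 hφ
  refine ⟨c0, by exact_mod_cast hmod2, x * Complex.exp (φ * Complex.I), ?_, ?_, ?_⟩
  · rw [norm_mul, Complex.norm_exp_ofReal_mul_I, Complex.norm_real, Real.norm_eq_abs,
      abs_of_pos hx0, mul_one]
  · have e : (x:ℂ) * Complex.exp (φ * Complex.I) - 1 =
        ((x - 1 : ℝ) : ℂ) * Complex.exp (φ * Complex.I) + (Complex.exp (Complex.I * φ) - 1) := by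
      push_cast
      rw [mul_comm Complex.I (φ:ℂ)]
      ring
    rw [e]
    refine (norm_add_le _ _).trans ?_
    rw [norm_mul, Complex.norm_exp_ofReal_mul_I, Complex.norm_real, Real.norm_eq_abs,
      abs_of_nonneg (by linarith : 0 ≤ x - 1), mul_one]
    have h6 : ‖Complex.exp (Complex.I * φ) - 1‖ ≤ ‖φ‖ := Real.norm_exp_I_mul_ofReal_sub_one_le
    rw [Real.norm_eq_abs] at h6
    linarith
  · rw [Fq_polar f r _ lam x φ hx0 (by linarith) (by linarith)]
    have e : 2 * Real.pi * c0 / K + 2 / lam * φ = Complex.arg z - k * (2 * Real.pi) := by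
      rw [← hφdef, ← hdec]
      field_simp
      ring
    have e2 : ((r * Real.exp (2 / lam * Real.log x) : ℝ) : ℂ) *
        Complex.exp (((2 * Real.pi * c0 / K + 2 / lam * φ : ℝ) : ℂ) * Complex.I) = z := by
      rw [e, ← hz]
      have e3 : ((Complex.arg z - k * (2 * Real.pi) : ℝ) : ℂ) * Complex.I =
          (Complex.arg z : ℂ) * Complex.I - (k:ℂ) * (2 * Real.pi * Complex.I) := by
        push_cast
        ring
      rw [e3, Complex.exp_sub, Complex.exp_int_mul_two_pi_mul_I, div_one]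
      exact Complex.norm_mul_exp_arg_mul_I z
    rw [e2]
    exact hfz

/-- TARGET -/
theorem peak : S_PEAK := by
  intro ε hε hε1
  obtain ⟨ρ, hρ, hρ1, kd, hkd, δ0, hδ0, C, hC, hdisc⟩ :=
    disc_estimate (ε / 4) (by linarith) (by linarith)
  have hpi := Real.pi_pos
  have hpi3 := Real.pi_gt_three
  have hpi4 := Real.pi_lt_d2
  have hB : 0 ≤ Real.log (32 / ρ ^ 2) := by
    apply Real.log_nonneg
    rw [le_div_iff₀ (by positivity)]
    nlinarith
  obtain ⟨c1, hc1, hc1a, hc1b, hc1c⟩ : ∃ c1 : ℝ, 0 < c1 ∧ c1 ≤ 1 / 4 ∧ c1 ≤ δ0 ∧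
      c1 ≤ kd / 12 := by
    refine ⟨min δ0 (min (kd / 12) (1 / 4)), ?_, ?_, ?_, ?_⟩
    · exact lt_min hδ0 (lt_min (by positivity) (by norm_num))
    · exact (min_le_right _ _).trans (min_le_right _ _)
    · exact min_le_left _ _
    · exact (min_le_right _ _).trans (min_le_left _ _)
  refine ⟨max 4 (Real.exp ((6 * Real.log (32 / ρ ^ 2) + 4 * C) / ε)),
    lt_of_lt_of_le (by norm_num) (le_max_left _ _), 2 / c1 ^ 2, ?_, ?_⟩
  · rw [ge_iff_le, le_div_iff₀ (by positivity)]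
    nlinarith
  intro f hf hne
  obtain ⟨c, hc, hrot⟩ := rotation_leak f hf hne
  refine ⟨1 + 2 / (kd * c1) * (1 + 3 * |Real.log c|), by positivity, ?_⟩
  intro lam hlam r A hr hA hg T hT
  have hlam4 : 4 ≤ lam := (le_max_left _ _).trans hlam
  have hlam0 : 0 < lam := by linarith
  have hlog : (6 * Real.log (32 / ρ ^ 2) + 4 * C) / ε ≤ Real.log lam := by
    rw [Real.le_log_iff_exp_le hlam0]
    exact (le_max_right _ _).trans hlam
  obtain ⟨δ, hδ, hδ1, hδd, hδk, hδl⟩ : ∃ δ : ℝ, 0 < δ ∧ δ ≤ 1 / 4 ∧ δ ≤ δ0 ∧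
      δ ≤ kd / (4 * (2 * lam + 1)) ∧ δ = c1 / lam := by
    have h1 : c1 / lam ≤ c1 := by
      rw [div_le_iff₀ hlam0]
      nlinarith
    refine ⟨c1 / lam, by positivity, h1.trans hc1a, h1.trans hc1b, ?_, rfl⟩
    rw [div_le_div_iff₀ hlam0 (by positivity)]
    nlinarith
  have hd1 : δ ≤ 1 := by linarith
  have hH : 2 / lam * Real.log (2 / δ ^ 2) ≤ HH (2 / c1 ^ 2) lam := by
    unfold HH
    apply mul_le_mul_of_nonneg_left _ (by positivity)
    have e1 : 2 / δ ^ 2 = 2 / c1 ^ 2 * lam ^ 2 := by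
      rw [hδl]
      field_simp
    rw [e1]
    linarith
  have hH2 : 2 / lam ≤ HH (2 / c1 ^ 2) lam := by
    unfold HH
    have h1 : 0 ≤ Real.log (2 / c1 ^ 2 * lam ^ 2) := by
      apply Real.log_nonneg
      have h2 : 1 ≤ 2 / c1 ^ 2 := by
        rw [le_div_iff₀ (by positivity)]
        nlinarith
      have h3 : 1 ≤ lam ^ 2 := by nlinarith
      calc (1 : ℝ) = 1 * 1 := by ring
        _ ≤ 2 / c1 ^ 2 * lam ^ 2 := mul_le_mul h2 h3 (by norm_num) (by positivity)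
    have h4 : 0 < 2 / lam := by positivity
    nlinarith
  have hAmax : max 1 ((2 / (kd * δ)) * (1 - Real.log (c ^ ⌈2 * lam⌉₊))) ≤ A := by
    refine le_trans (max_le ?_ ?_) hA
    · have h1 : 0 ≤ 2 / (kd * c1) * (1 + 3 * |Real.log c|) := by positivity
      have h2 : (1 : ℝ) ≤ lam ^ 2 := by nlinarith
      calc (1 : ℝ) = 1 * 1 := by ring
        _ ≤ (1 + 2 / (kd * c1) * (1 + 3 * |Real.log c|)) * lam ^ 2 :=
          mul_le_mul (by linarith) h2 (by norm_num) (by positivity)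
    · have hN2 : (⌈2 * lam⌉₊ : ℝ) ≤ 2 * lam + 1 := (Nat.ceil_lt_add_one (by positivity)).le
      have h1 : 1 - Real.log (c ^ ⌈2 * lam⌉₊) ≤ (1 + 3 * |Real.log c|) * lam := by
        rw [Real.log_pow]
        have h2 : -(⌈2 * lam⌉₊ * Real.log c) ≤ (2 * lam + 1) * |Real.log c| := by
          calc -(⌈2 * lam⌉₊ * Real.log c) ≤ |(⌈2 * lam⌉₊ : ℝ) * Real.log c| := neg_le_abs _
            _ = (⌈2 * lam⌉₊ : ℝ) * |Real.log c| := by
                rw [abs_mul, abs_of_nonneg (Nat.cast_nonneg _)]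
            _ ≤ _ := mul_le_mul_of_nonneg_right hN2 (abs_nonneg _)
        nlinarith [abs_nonneg (Real.log c)]
      have h3 : 2 / (kd * δ) = 2 / (kd * c1) * lam := by
        rw [hδl]
        field_simp
      rw [h3]
      calc 2 / (kd * c1) * lam * (1 - Real.log (c ^ ⌈2 * lam⌉₊))
          ≤ 2 / (kd * c1) * lam * ((1 + 3 * |Real.log c|) * lam) :=
            mul_le_mul_of_nonneg_left h1 (by positivity)
        _ = 2 / (kd * c1) * (1 + 3 * |Real.log c|) * lam ^ 2 := by ring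
        _ ≤ (1 + 2 / (kd * c1) * (1 + 3 * |Real.log c|)) * lam ^ 2 := by
            nlinarith [sq_nonneg lam]
  clear hA
  rename' hAmax => hA
  have hA0 : 1 ≤ A := (le_max_left _ _).trans hA
  have hek : 1 ≤ Real.exp (ε / 20) := by
    exact Real.one_le_exp (by linarith)
  have hek2 : Real.exp (ε / 20) * (2 + ε / 4) ≤ 2 + ε / 2 := by
    have h1 : 1 - ε / 20 ≤ Real.exp (-(ε / 20)) := by
      have := Real.add_one_le_exp (-(ε / 20))
      linarith
    have h2 : Real.exp (ε / 20) * (1 - ε / 20) ≤ 1 := by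
      have := mul_le_mul_of_nonneg_left h1 (Real.exp_pos (ε / 20)).le
      rw [← Real.exp_add, add_neg_cancel, Real.exp_zero] at this
      exact this
    have h3 : 2 + ε / 4 ≤ (2 + ε / 2) * (1 - ε / 20) := by nlinarith
    calc Real.exp (ε / 20) * (2 + ε / 4) ≤ Real.exp (ε / 20) * ((2 + ε / 2) * (1 - ε / 20)) :=
          mul_le_mul_of_nonneg_left h3 (Real.exp_pos _).le
      _ = (2 + ε / 2) * (Real.exp (ε / 20) * (1 - ε / 20)) := by ring
      _ ≤ (2 + ε / 2) * 1 := mul_le_mul_of_nonneg_left h2 (by linarith)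
      _ = 2 + ε / 2 := by ring
  have hek3 : Real.exp (ε / 20) ≤ 2 := by
    have h1 : 0 < Real.exp (ε / 20) := Real.exp_pos _
    nlinarith
  have hr0 : 0 < r := lt_of_lt_of_le (Real.exp_pos _) hr
  have hR1 : Real.sqrt (1 - δ ^ 2) < 1 := by
    rw [Real.sqrt_lt' one_pos]
    nlinarith
  have hR0 : 0 < Real.sqrt (1 - δ ^ 2) := by
    apply Real.sqrt_pos.2
    nlinarith
  have hR2 : 1 - δ ^ 2 ≤ Real.sqrt (1 - δ ^ 2) ^ 2 := by
    rw [Real.sq_sqrt (by nlinarith)]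
  have hKpos : 0 < ⌈2 * Real.pi * lam / ρ⌉₊ := Nat.ceil_pos.2 (by positivity)
  have hK1 : 2 * Real.pi * lam / ρ ≤ (⌈2 * Real.pi * lam / ρ⌉₊ : ℝ) := Nat.le_ceil _
  have hK2 : (⌈2 * Real.pi * lam / ρ⌉₊ : ℝ) ≤ 8 * lam / ρ := by
    have h1 := Nat.ceil_lt_add_one (by positivity : 0 ≤ 2 * Real.pi * lam / ρ)
    have h2 : 2 * Real.pi * lam / ρ + 1 ≤ 8 * lam / ρ := by
      rw [div_add_one hρ.ne']
      apply div_le_div_of_nonneg_right _ hρ.le
      nlinarith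
    linarith
  have hN1 : 2 * lam ≤ (⌈2 * lam⌉₊ : ℝ) := Nat.le_ceil _
  have hN2 : (⌈2 * lam⌉₊ : ℝ) ≤ 2 * lam + 1 := (Nat.ceil_lt_add_one (by positivity)).le
  generalize ⌈2 * Real.pi * lam / ρ⌉₊ = K at hKpos hK1 hK2
  generalize ⌈2 * lam⌉₊ = N at hN1 hN2 hA
  have hKr : (0:ℝ) < K := by exact_mod_cast hKpos
  have hA0c : Real.exp (-(kd * (max 1 ((2 / (kd * δ)) * (1 - Real.log (c ^ N)))) * δ / 2)) <
      c ^ N := by
    have hcN : 0 < c ^ N := pow_pos hc N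
    rw [← Real.lt_log_iff_exp_lt hcN]
    have h1 : (2 / (kd * δ)) * (1 - Real.log (c ^ N)) ≤
      max 1 ((2 / (kd * δ)) * (1 - Real.log (c ^ N))) := le_max_right _ _
    have h2 : 1 - Real.log (c ^ N) ≤
        kd * (max 1 ((2 / (kd * δ)) * (1 - Real.log (c ^ N)))) * δ / 2 := by
      have h3 := mul_le_mul_of_nonneg_left h1 (by positivity : 0 ≤ kd * δ / 2)
      have e : kd * δ / 2 * ((2 / (kd * δ)) * (1 - Real.log (c ^ N))) = 1 - Real.log (c ^ N) := by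
        field_simp
      rw [e] at h3
      calc 1 - Real.log (c ^ N) ≤ _ := h3
        _ = _ := by ring
    linarith
  -- the sets E
  have hcov := cover_aux f lam ρ r (HH (2 / c1 ^ 2) lam) (Real.exp (-(T * A))) K hK1
    hlam4 hρ hρ1 hH2 hT
  obtain ⟨c0, hc0, hvol⟩ := vol_aux ρ hρ K hKpos (fun c0 => {x : ℝ | ∃ w : ℂ, ‖w‖ = x ∧
    ‖w - 1‖ ≤ ρ ∧ ‖Fq f r (2 * Real.pi * c0 / K) lam w‖ ≤ Real.exp (-(T * A))}) (by
      intro x hx
      obtain ⟨c0, hc0, hw⟩ := hcov x hx.1 hx.2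
      rw [Set.mem_iUnion₂]
      exact ⟨c0, Finset.mem_range.2 hc0, hw⟩)
  have hA2 : 1 ≤ A * Real.exp (ε / 20) := by nlinarith
  have hTA : T * Real.exp (-(ε / 20)) * (A * Real.exp (ε / 20)) = T * A := by
    have : Real.exp (-(ε / 20)) * Real.exp (ε / 20) = 1 := by
      rw [← Real.exp_add, neg_add_cancel, Real.exp_zero]
    calc T * Real.exp (-(ε / 20)) * (A * Real.exp (ε / 20)) =
        T * A * (Real.exp (-(ε / 20)) * Real.exp (ε / 20)) := by ring
      _ = T * A := by rw [this, mul_one]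
  have hfin := hdisc δ hδ hδd (A * Real.exp (ε / 20)) hA2 (Real.sqrt (1 - δ ^ 2)) hR0 hR1 hR2
    (Fq f r (2 * Real.pi * c0 / K) lam) (Fq_an f hf r _ lam _ hR1)
    (sphere_aux f A (ε / 20) lam δ r _ hlam0 hδ hd1 hr0.le _ hH hg)
    (nonleak_aux f c hrot _ A (ε / 20) kd lam δ r _ N (by linarith) hkd hlam4 hδ hd1 hδk hN1 hN2
      hA0c (le_max_left _ _) hA _ hH hr hg)
    (T * Real.exp (-(ε / 20))) (ρ / (4 * K)) (by positivity) (by
      rw [div_le_one (by positivity)]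
      have : (1:ℝ) ≤ K := by exact_mod_cast hKpos
      linarith) _ hvol (by
      rintro x ⟨w, hw1, hw2, hw3⟩
      refine ⟨w, hw1, hw2, ?_⟩
      rw [hTA]
      exact hw3)
  have hlog2 : Real.log (1 / (ρ / (4 * K))) ≤ Real.log lam + Real.log (32 / ρ ^ 2) := by
    rw [← Real.log_mul (by positivity) (by positivity)]
    apply Real.log_le_log (by positivity)
    have e1 : 1 / (ρ / (4 * K)) = 4 * K / ρ := by field_simp
    rw [e1, div_le_iff₀ hρ]
    have e2 : lam * (32 / ρ ^ 2) * ρ = 4 * (8 * lam / ρ) := by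
      field_simp
      ring
    rw [e2]
    linarith
  have hT2 : T = Real.exp (ε / 20) * (T * Real.exp (-(ε / 20))) := by
    have : Real.exp (-(ε / 20)) * Real.exp (ε / 20) = 1 := by
      rw [← Real.exp_add, neg_add_cancel, Real.exp_zero]
    calc T = T * (Real.exp (-(ε / 20)) * Real.exp (ε / 20)) := by rw [this, mul_one]
      _ = _ := by ring
  have hloglam : 0 ≤ Real.log lam := Real.log_nonneg (by linarith)
  have h6 : Real.exp (ε / 20) * (T * Real.exp (-(ε / 20))) ≤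
      Real.exp (ε / 20) * ((2 + ε / 4) * (Real.log lam + Real.log (32 / ρ ^ 2)) + C) := by
    apply mul_le_mul_of_nonneg_left _ (Real.exp_pos _).le
    have := mul_le_mul_of_nonneg_left hlog2 (by linarith : 0 ≤ 2 + ε / 4)
    linarith
  have h7 : Real.exp (ε / 20) * ((2 + ε / 4) * (Real.log lam + Real.log (32 / ρ ^ 2)) + C) ≤
      (2 + ε / 2) * (Real.log lam + Real.log (32 / ρ ^ 2)) + 2 * C := by
    have h8 := mul_le_mul_of_nonneg_right hek2
      (by linarith : 0 ≤ Real.log lam + Real.log (32 / ρ ^ 2))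
    have h9 := mul_le_mul_of_nonneg_right hek3 hC.le
    nlinarith
  rw [div_le_iff₀ hε] at hlog
  rw [hT2]
  nlinarith

end Pool.Agent.W646.CI.Pk
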