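import Pool.Agent.W646.CI.Poly
import Pool.Agent.W54.CI.CELL
import Pool.Agent.W571.CI.Rad1
import Pool.Agent.W191.CI.Lowf
import Pool.Agent.W933.CI.EP
import Pool.Agent.W202.CI.Epb
import Pool.Agent.W639.CI.LogReci
import Pool.Agent.W253.CI.Well
import Pool.Agent.W571.CI.Disj
import Pool.Agent.W52.CI.Den
import Pool.Agent.W19.CI.GAM
import Pool.Agent.W67.CI.Rad2
import Pool.Agent.W924.CI.GEO
import Pool.Agent.W392.CI.Area
import Pool.Agent.W585.CI.GEO2
import Pool.Agent.W490.CI.Sum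
import Pool.Agent.W991.CI.Lim
import Pool.Agent.W63.CI.Fin
import Pool.Agent.W371.CI.Xib
import Pool.Agent.W101.CI.XiExp
import Pool.Agent.W376.CI.Fin
import Pool.Agent.W214.CI.Grow
import Pool.Agent.W646.CI.Peak

/-!
# MP_06ac62_an, Q1: the constant `C_∞` equals `-2`.  Assembly.
-/

set_option autoImplicit false

namespace Pool.Agent.W646.CI

theorem limf : S_LIM := by
  have hLOGI : S_LOGI := Pool.Agent.W639.CI.LogReci.logi
  have hRECI : S_RECI := Pool.Agent.W639.CI.LogReci.reci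
  exact Pool.Agent.W991.CI.main (poly
    (Pool.Agent.W54.CI.cell Pool.Agent.W933.CI.t_EP Pool.Agent.W202.CI.Epb.epb hLOGI hRECI)
    Pool.Agent.W253.CI.well
    (Pool.Agent.W19.CI.gam Pool.Agent.W571.CI.disj Pool.Agent.W52.CI.t_DEN)
    (Pool.Agent.W571.CI.rad1 hLOGI)
    Pool.Agent.W67.CI.main
    Pool.Agent.W924.CI.main
    Pool.Agent.W392.CI.t_AREA
    Pool.Agent.W585.CI.geo2
    Pool.Agent.W101.CI.main Pool.Agent.W371.CI.xib Pool.Agent.W490.CI.t_SUM hLOGI hRECI)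

theorem final0 (hPEAK : S_PEAK) : S_FIN :=
  Pool.Agent.W63.CI.fin (Pool.Agent.W191.CI.lowf hPEAK Pool.Agent.W214.CI.grow)
    (Pool.Agent.W376.CIF.fin_u limf)

/-- `C_∞ = -2`. -/
theorem final : CInf = -2 := final0 Pk.peak

end Pool.Agent.W646.CI
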