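import Mathlib
import Pool.Agent.MP06ac62.Defs

/-!
# MP_06ac62_an, Q1: the constant `C_∞` equals `-2`.  Definitions.

The plane of `s = log ζ` is used throughout: a zero of the entire function at `ζ = exp s`.
`K ≥ 3` natural, `h(t) = t^K`, the function to be built has `log M(e^t) ≈ exp (t^K)`.
-/

set_option autoImplicit false

namespace Pool.Agent.W646.CI

open MeasureTheory Filter Topology Set

noncomputable section

/-- Radius (in the logarithmic scale) of the `j`-th well. -/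
def tj (K j : ℕ) : ℝ := (j : ℝ) ^ ((1 : ℝ) / (2 * K - 2))

/-- Local order at the `j`-th well: `lj = K * tj^(K-1) = K * sqrt j`. -/
def lj (K j : ℕ) : ℝ := K * Real.sqrt j

/-- The `j`-th well (logarithm of the zero). -/
def sj (K j : ℕ) : ℂ := ⟨tj K j, 8 * Real.sqrt j⟩

/-- `exp (h (tj))`. -/
def ej (K j : ℕ) : ℝ := Real.exp (tj K j ^ K)

/-- The region swept to the `j`-th well: image of the disc `|w - 1| < R` under
`w ↦ sj + (2 / lj) log w`. -/
def DD (K : ℕ) (R : ℝ) (j : ℕ) : Set ℂ :=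
  {s : ℂ | |s.im - 8 * Real.sqrt j| < Real.pi / lj K j ∧
    ‖Complex.exp (((lj K j / 2 : ℝ) : ℂ) * (s - sj K j)) - 1‖ < R}

/-- Area density in the disc coordinate. -/
def den (K j : ℕ) (t : ℝ) : ℝ := lj K j ^ 2 * ej K j * Real.exp (lj K j * (t - tj K j))

/-- `rho = (exp ∘ h)''`. -/
def rho (K : ℕ) (t : ℝ) : ℝ :=
  ((K * t ^ (K - 1)) ^ 2 + K * (K - 1) * t ^ (K - 2)) * Real.exp (t ^ K)

/-- A fundamental domain of the shells `a ≤ Re s < b` modulo `2 π i`, sheared along the wells. -/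
def Om (K : ℕ) (a b : ℝ) : Set ℂ :=
  {s : ℂ | a ≤ s.re ∧ s.re < b ∧ -Real.pi ≤ s.im - 8 * s.re ^ (K - 1) ∧
    s.im - 8 * s.re ^ (K - 1) < Real.pi}

/-- Multiplicity of the `j`-th well. -/
def mj (K : ℕ) (R ε : ℝ) (j : ℕ) : ℕ := ⌊2 * (1 - ε) * R ^ 2 * ej K j⌋₊

/-- The wells used between the levels `T0` and `n`. -/
def WW (K T0 n : ℕ) : Finset ℕ :=
  (Finset.range (n ^ (2 * K - 2))).filter (fun j => (T0 : ℝ) + 1 ≤ tj K j ∧ tj K j ≤ (n : ℝ) - 1)

open Classical in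
/-- The density of the remaining mass. -/
def GG (K : ℕ) (R ε : ℝ) (T0 n : ℕ) (s : ℂ) : ℝ :=
  (1 / (2 * Real.pi)) * ((Om K T0 n).indicator (fun s => rho K s.re) s -
    ∑ j ∈ WW K T0 n, ((mj K R ε j : ℝ) / (2 * R ^ 2 * ej K j)) *
      (DD K R j).indicator (fun s => den K j s.re) s)

/-- Number of subdivisions of the shell `m ≤ Re s < m + 1`. -/
def LL (K m : ℕ) : ℕ := (m + 2) ^ (20 * K)

/-- The cells. -/
def cell (K m i l : ℕ) : Set ℂ :=
  {s : ℂ | (m : ℝ) + i / LL K m ≤ s.re ∧ s.re < (m : ℝ) + (i + 1) / LL K m ∧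
    -Real.pi + 2 * Real.pi * l / LL K m ≤ s.im - 8 * s.re ^ (K - 1) ∧
    s.im - 8 * s.re ^ (K - 1) < -Real.pi + 2 * Real.pi * (l + 1) / LL K m}

/-- The corner of the cell. -/
def cpt (K m i l : ℕ) : ℂ :=
  ⟨(m : ℝ) + i / LL K m,
    8 * ((m : ℝ) + i / LL K m) ^ (K - 1) - Real.pi + 2 * Real.pi * l / LL K m⟩

/-- The genus used in the cell (it depends only on the column). -/
def pp (K m i : ℕ) : ℕ := ⌊(K : ℝ) * ((m : ℝ) + i / LL K m) ^ (K - 1)⌋₊ + 1

/-- Bound for the diameter of the cells. -/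
def dl (K m : ℕ) : ℝ := 16 * K * (m + 2) ^ K / LL K m

/-- Error kernel. -/
def Xi (p : ℕ) (u : ℂ) : ℝ := (p + 2) * ‖u‖ ^ (p + 1) * (1 + 1 / ‖1 - u‖)

/-- The window of the lower estimate. -/
def HH (D lam : ℝ) : ℝ := 2 / lam * (Real.log (D * lam ^ 2) + 1)

/-- The order (with the upper limit). -/
def order (f : ℂ → ℂ) : EReal :=
  limsup (fun r : ℝ => ((Real.log (MinMod.aF f r) / Real.log r : ℝ) : EReal)) atTop

/-- `Λ_∞(f)`. -/
def LamInf (f : ℂ → ℂ) : EReal :=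
  limsup (fun r : ℝ => MinMod.bF f r /
    ((MinMod.aF f r * Real.log (Real.log (MinMod.aF f r)) : ℝ) : EReal)) atTop

/-- `C_∞`. -/
def CInf : EReal :=
  sInf {L : EReal | ∃ f : ℂ → ℂ, Differentiable ℂ f ∧ order f = ⊤ ∧ L = LamInf f}

end

end Pool.Agent.W646.CI
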