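import Pool.Agent.W646.CI.PolyB

/-!
# The approximating functions.
-/

set_option autoImplicit false

namespace Pool.Agent.W646.CI

open MeasureTheory Filter Topology Set

/-- Splitting of the radial integral. -/
lemma pl_split {K : ℕ} {R ε : ℝ} {T0 n : ℕ} (z : ℂ)
    (hLOGI : S_LOGI)
    (hDD : ∀ j ∈ WW K T0 n, DD K R j ⊆ Om K T0 n)
    (hGm : Measurable (GG K R ε T0 n))
    (hGB : ∃ B, ∀ s, |GG K R ε T0 n s| ≤ B) :
    IntegrableOn (fun s => GG K R ε T0 n s * Real.log ‖1 - z * Complex.exp (-s)‖)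
      (Om K T0 n) ∧
    (∑ j ∈ WW K T0 n, (mj K R ε j : ℝ) * ((1 / (2 * R ^ 2 * ej K j)) *
      ((1 / (2 * Real.pi)) *
        ∫ s in DD K R j, den K j s.re * Real.log ‖1 - z * Complex.exp (-s)‖))) +
      ∫ s in Om K T0 n, GG K R ε T0 n s * Real.log ‖1 - z * Complex.exp (-s)‖ =
      (1 / (2 * Real.pi)) *
        ∫ s in Om K T0 n, rho K s.re * Real.log ‖1 - z * Complex.exp (-s)‖ := by
  have hbd : Bornology.IsBounded (Om K (T0 : ℝ) n) := pl_Om_bdd (Nat.cast_nonneg T0)
  have hlog := hLOGI z _ hbd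
  have hfin : volume (Om K (T0 : ℝ) n) ≠ ⊤ := hbd.measure_lt_top.ne
  -- bounded continuous functions times log
  have hcont : ∀ g : ℝ → ℝ, Continuous g →
      IntegrableOn (fun s : ℂ => g s.re * Real.log ‖1 - z * Complex.exp (-s)‖)
        (Om K T0 n) := by
    intro g hg
    have hc : Continuous (fun s : ℂ => g s.re) := hg.comp Complex.continuous_re
    obtain ⟨r, hr⟩ := hbd.subset_closedBall (0 : ℂ)
    have hcp : IsCompact (Metric.closedBall (0 : ℂ) r) := isCompact_closedBall _ _
    obtain ⟨B, hB⟩ := hcp.exists_bound_of_continuousOn hc.continuousOn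
    apply Integrable.bdd_mul (c := B) hlog
    · exact hc.aestronglyMeasurable
    · apply ae_restrict_of_forall_mem pl_Om_meas
      intro s hs
      exact hB s (hr hs)
  obtain ⟨B, hB⟩ := hGB
  have hGi : IntegrableOn (fun s => GG K R ε T0 n s * Real.log ‖1 - z * Complex.exp (-s)‖)
      (Om K T0 n) := by
    apply Integrable.bdd_mul (c := B) hlog
    · exact hGm.aestronglyMeasurable
    · exact ae_of_all _ (fun s => by rw [Real.norm_eq_abs]; exact hB s)
  refine ⟨hGi, ?_⟩
  have hDi : ∀ j ∈ WW K T0 n, IntegrableOn (fun s : ℂ => (DD K R j).indicator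
      (fun s => den K j s.re * Real.log ‖1 - z * Complex.exp (-s)‖) s) (Om K T0 n) := by
    intro j hj
    exact (hcont (den K j) (pl_den_cont K j)).indicator (pl_DD_meas K R j)
  have hkey : ∀ s ∈ Om K (T0 : ℝ) n,
      GG K R ε T0 n s * Real.log ‖1 - z * Complex.exp (-s)‖ =
      (1 / (2 * Real.pi)) * (rho K s.re * Real.log ‖1 - z * Complex.exp (-s)‖ -
        ∑ j ∈ WW K T0 n, ((mj K R ε j : ℝ) / (2 * R ^ 2 * ej K j)) * (DD K R j).indicator
          (fun s => den K j s.re * Real.log ‖1 - z * Complex.exp (-s)‖) s) := by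
    intro s hs
    unfold GG
    rw [Set.indicator_of_mem hs, mul_assoc, sub_mul, Finset.sum_mul]
    congr 2
    apply Finset.sum_congr rfl
    intro j _
    by_cases h : s ∈ DD K R j
    · rw [Set.indicator_of_mem h, Set.indicator_of_mem h]
      ring
    · rw [Set.indicator_of_notMem h, Set.indicator_of_notMem h]
      ring
  rw [setIntegral_congr_fun pl_Om_meas hkey, integral_const_mul, integral_sub, integral_finsetSum]
  · have h1 : ∀ j ∈ WW K T0 n, ∫ s in Om K (T0 : ℝ) n,
        ((mj K R ε j : ℝ) / (2 * R ^ 2 * ej K j)) * (DD K R j).indicator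
          (fun s => den K j s.re * Real.log ‖1 - z * Complex.exp (-s)‖) s =
        ((mj K R ε j : ℝ) / (2 * R ^ 2 * ej K j)) *
          ∫ s in DD K R j, den K j s.re * Real.log ‖1 - z * Complex.exp (-s)‖ := by
      intro j hj
      rw [integral_const_mul, setIntegral_indicator (pl_DD_meas K R j),
        Set.inter_eq_self_of_subset_right (hDD j hj)]
    rw [Finset.sum_congr rfl h1, mul_sub, Finset.mul_sum]
    have h2 : ∀ j ∈ WW K T0 n, (mj K R ε j : ℝ) * ((1 / (2 * R ^ 2 * ej K j)) *
      ((1 / (2 * Real.pi)) *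
        ∫ s in DD K R j, den K j s.re * Real.log ‖1 - z * Complex.exp (-s)‖)) =
        1 / (2 * Real.pi) * (((mj K R ε j : ℝ) / (2 * R ^ 2 * ej K j)) *
          ∫ s in DD K R j, den K j s.re * Real.log ‖1 - z * Complex.exp (-s)‖) := by
      intro j _
      ring
    rw [Finset.sum_congr rfl h2]
    ring
  · intro j hj
    exact (hDi j hj).const_mul _
  · exact hcont (rho K) (pl_rho_cont K)
  · apply integrable_finsetSum
    intro j hj
    exact (hDi j hj).const_mul _

theorem poly (hCELL : S_CELL) (hWELL : S_WELL) (hGAM : S_GAM) (hRAD1 : S_RAD1)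
    (hRAD2 : S_RAD2) (hGEO : S_GEO) (hAREA : S_AREA) (hGEO2 : S_GEO2) (hXI : S_XI)
    (hXIB : S_XIB) (hSUM : S_SUM) (hLOGI : S_LOGI) (hRECI : S_RECI) : S_POLY := by
  intro K R ε hK hR hR1 hε hε1
  obtain ⟨T0, hT0, hgam⟩ := hGAM K R ε hK hR hR1 hε hε1
  obtain ⟨C1, hC1, hcell⟩ := hCELL
  obtain ⟨C2, hC2, hxib⟩ := hXIB
  obtain ⟨C3, hC3, hxi⟩ := hXI K hK
  have hpi := Real.pi_pos
  obtain ⟨η, hη0, hηn, hηb, hηs⟩ := hSUM K (2 * C1 * C3 / ε * (2 * C2)) hK (by positivity)
  refine ⟨T0, η, hη0, hηn, hηb, ?_⟩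
  intro n
  rcases lt_or_ge n T0 with hn | hn
  · refine ⟨fun _ => 1, differentiable_const 1, rfl, ?_, ?_⟩
    · intro z hz
      rw [norm_one]
      unfold bd
      apply Real.one_le_exp
      have := hηn (Real.log ‖z‖)
      positivity
    · intro j h1 h2
      exfalso
      have : (n : ℝ) < T0 := by exact_mod_cast hn
      linarith
  have hTR : (1 : ℝ) ≤ T0 := by exact_mod_cast hT0
  obtain ⟨hDD, hGm, hG0, hG⟩ := hgam T0 n le_rfl
  set G := GG K R ε T0 n with hGdef
  have hrpos : ∀ s ∈ Om K (T0 : ℝ) n, 0 < rho K s.re := by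
    intro s hs
    exact pl_rho_pos hK (lt_of_lt_of_le (by linarith) hs.1)
  have hGnn : ∀ s, 0 ≤ G s := by
    intro s
    by_cases hs : s ∈ Om K (T0 : ℝ) n
    · refine le_trans ?_ (hG s hs).1
      have := hrpos s hs
      positivity
    · rw [hG0 s hs]
  have hGB : ∀ s, G s ≤ rho K n / (2 * Real.pi) := by
    intro s
    have hnpos : (0 : ℝ) < n := by
      have : (T0 : ℝ) ≤ n := by exact_mod_cast hn
      linarith
    by_cases hs : s ∈ Om K (T0 : ℝ) n
    · refine (hG s hs).2.trans ?_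
      have : rho K s.re ≤ rho K n := pl_rho_mono hK (by linarith [hs.1]) hs.2.1.le
      gcongr
    · rw [hG0 s hs]
      have := pl_rho_pos hK hnpos
      positivity
  have hLpos : ∀ m, 0 < (LL K m : ℝ) := by
    intro m
    unfold LL
    positivity
  have hdl : ∀ m, 0 < dl K m := by
    intro m
    unfold dl
    have := hLpos m
    have hKp : 0 < K := by omega
    positivity
  -- geometry of a cell
  obtain ⟨hcm, hcu, hcd⟩ := hGEO K hK
  have hsub : ∀ m ∈ Finset.Ico T0 n, ∀ i ∈ Finset.range (LL K m), ∀ l ∈ Finset.range (LL K m),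
      cell K m i l ⊆ Om K T0 n := by
    intro m hm' i hi l hl
    rw [hcu T0 n hn]
    intro s hs
    simp only [mem_iUnion]
    exact ⟨m, hm', i, hi, l, hl, hs⟩
  have hOb : Bornology.IsBounded (Om K (T0 : ℝ) n) := pl_Om_bdd (Nat.cast_nonneg T0)
  have hGi : IntegrableOn G (Om K T0 n) := by
    apply Measure.integrableOn_of_bounded (M := rho K n / (2 * Real.pi))
      hOb.measure_lt_top.ne hGm.aestronglyMeasurable
    apply ae_of_all
    intro s
    rw [Real.norm_eq_abs, abs_of_nonneg (hGnn s)]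
    exact hGB s
  have hosc : ∀ m ∈ Finset.Ico T0 n, ∀ i ∈ Finset.range (LL K m), ∀ l ∈ Finset.range (LL K m),
      ∀ s ∈ cell K m i l, ∀ s' ∈ cell K m i l, rho K s.re ≤ 2 * rho K s'.re := by
    intro m hm i hi l hl
    exact (hGEO2 K hK m i l (Finset.mem_range.mp hi) (Finset.mem_range.mp hl)).2.2
      (hT0.trans (Finset.mem_Ico.mp hm).1)
  have hgpos : ∀ m ∈ Finset.Ico T0 n, ∀ i ∈ Finset.range (LL K m),
      ∀ l ∈ Finset.range (LL K m), 0 < ∫ s in cell K m i l, G s := by
    intro m hm i hi l hl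
    have hsb := hsub m hm i hi l hl
    have hne : (cell K m i l).Nonempty := by
      rw [Set.nonempty_iff_ne_empty]
      intro h
      have h1 := hAREA K hK m i l
      rw [h, measure_empty] at h1
      have h2 := hLpos m
      have h3 : 0 < 2 * Real.pi / (LL K m : ℝ) ^ 2 := by positivity
      exact absurd h1.symm (ENNReal.ofReal_pos.mpr h3).ne'
    obtain ⟨s, hs⟩ := hne
    have h1 := pl_gam (hLpos m) hε (hcm m i l) (hAREA K hK m i l) (hGi.mono_set hsb)
      (fun s hs => (hG s (hsb hs)).1) (hosc m hm i hi l hl) s hs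
    have h2 := hrpos s (hsb hs)
    have h3 := hLpos m
    exact lt_of_lt_of_le (by positivity) h1
  -- the functions of the cells
  have hF : ∀ m i l : ℕ, ∃ F : ℂ → ℂ, Differentiable ℂ F ∧ F 0 = 1 ∧
      (m ∈ Finset.Ico T0 n → i ∈ Finset.range (LL K m) → l ∈ Finset.range (LL K m) → ∀ z : ℂ,
      ‖F z‖ ≤ Real.exp ((∫ s in cell K m i l, G s * Real.log ‖1 - z * Complex.exp (-s)‖) +
        (C1 * dl K m + C1 / ∫ s in cell K m i l, G s) *
          ∫ s in cell K m i l, G s * Xi (pp K m i) (z * Complex.exp (-s)))) := by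
    intro m i l
    by_cases h : m ∈ Finset.Ico T0 n ∧ i ∈ Finset.range (LL K m) ∧ l ∈ Finset.range (LL K m)
    · obtain ⟨hm, hi, hl⟩ := h
      obtain ⟨g1, g2, g3⟩ := hGEO2 K hK m i l (Finset.mem_range.mp hi) (Finset.mem_range.mp hl)
      obtain ⟨F, f1, f2, f3⟩ := hcell (pp K m i) (dl K m) (cell K m i l) (cpt K m i l) G
        (rho K n / (2 * Real.pi)) (hdl m) g2 (hcm m i l) g1 hGm hGnn hGB
        (hgpos m hm i hi l hl)
      exact ⟨F, f1, f2, fun _ _ _ => f3⟩
    · exact ⟨fun _ => 1, differentiable_const 1, rfl, fun a b c => absurd ⟨a, b, c⟩ h⟩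
  choose F hFd hF0 hFb using hF
  set f : ℂ → ℂ := fun z => (∏ j ∈ WW K T0 n, (1 - z * Complex.exp (-sj K j)) ^ (mj K R ε j)) *
    ∏ m ∈ Finset.Ico T0 n, ∏ i ∈ Finset.range (LL K m), ∏ l ∈ Finset.range (LL K m),
      F m i l z with hf
  have hdP : Differentiable ℂ (fun z => ∏ m ∈ Finset.Ico T0 n, ∏ i ∈ Finset.range (LL K m),
      ∏ l ∈ Finset.range (LL K m), F m i l z) := by
    apply Differentiable.fun_finsetProd
    intro m _
    apply Differentiable.fun_finsetProd
    intro i _
    apply Differentiable.fun_finsetProd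
    intro l _
    exact hFd m i l
  have hdW : ∀ S : Finset ℕ, Differentiable ℂ (fun z => ∏ j ∈ S,
      (1 - z * Complex.exp (-sj K j)) ^ (mj K R ε j)) := by
    intro S
    apply Differentiable.fun_finsetProd
    intro j _
    fun_prop
  refine ⟨f, (hdW _).mul hdP, ?_, ?_, ?_⟩
  · simp only [hf, zero_mul, sub_zero, one_pow, Finset.prod_const_one, hF0, mul_one]
  · intro z hz
    have hz0 : 0 < ‖z‖ := lt_of_lt_of_le (Real.exp_pos 1) hz
    have hzne : z ≠ 0 := norm_pos_iff.mp hz0
    set τ := Real.log ‖z‖ with hτ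
    have hτ1 : 1 ≤ τ := by
      rw [hτ, Real.le_log_iff_exp_le hz0]
      exact hz
    have hzτ : ‖z‖ = Real.exp τ := by
      rw [hτ, Real.exp_log hz0]
    obtain ⟨hGL, hsplit⟩ := pl_split (R := R) (ε := ε) z hLOGI hDD hGm
      ⟨rho K n / (2 * Real.pi), fun s => by
        rw [abs_of_nonneg (hGnn s)]
        exact hGB s⟩
    -- the weight
    have hWi : ∀ A : Set ℂ, Bornology.IsBounded A →
        IntegrableOn (fun s : ℂ => 1 + 1 / ‖1 - z * Complex.exp (-s)‖) A := by
      intro A hA
      apply Integrable.add _ (hRECI z A hA)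
      exact integrableOn_const hA.measure_lt_top.ne enorm_ne_top
    -- error of a cell
    have herr : ∀ m ∈ Finset.Ico T0 n, ∀ i ∈ Finset.range (LL K m),
        ∀ l ∈ Finset.range (LL K m),
        (C1 * dl K m + C1 / ∫ s in cell K m i l, G s) *
          ∫ s in cell K m i l, G s * Xi (pp K m i) (z * Complex.exp (-s)) ≤
        (2 * C1 * C3 / ε) * (dl K m + (LL K m : ℝ) ^ 2 * Real.exp (-(m : ℝ) ^ K)) *
          ((m : ℝ) + 2) ^ (3 * K) * Real.exp (-(τ - m) ^ 2 / 4) * Real.exp (τ ^ K) *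
          ∫ s in cell K m i l, (1 + 1 / ‖1 - z * Complex.exp (-s)‖) := by
      intro m hm i hi l hl
      have hsb := hsub m hm i hi l hl
      have hm1 : 1 ≤ m := hT0.trans (Finset.mem_Ico.mp hm).1
      exact pl_err hzτ (hLpos m) hε hε1 (hdl m) hC1 hC3 (hcm m i l) (hAREA K hK m i l)
        (hGi.mono_set hsb) (fun s hs => (hG s (hsb hs)).1) (fun s hs => (hG s (hsb hs)).2)
        (fun s hs => hrpos s (hsb hs)) (hosc m hm i hi l hl)
        (fun s hs => (hxi m i hm1 (Finset.mem_range.mp hi) s.re hs.1 hs.2.1 τ hτ1).1)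
        (fun s hs => (hxi m i hm1 (Finset.mem_range.mp hi) s.re hs.1 hs.2.1 τ hτ1).2)
        (hWi _ (hOb.subset hsb))
    -- one shell
    have hshell : ∀ m ∈ Finset.Ico T0 n, ∑ i ∈ Finset.range (LL K m),
        ∑ l ∈ Finset.range (LL K m),
          ∫ s in cell K m i l, (1 + 1 / ‖1 - z * Complex.exp (-s)‖) ≤ 2 * C2 := by
      intro m hm
      have hb : Bornology.IsBounded (Om K (m : ℝ) ((m + 1 : ℕ) : ℝ)) :=
        pl_Om_bdd (Nat.cast_nonneg m)
      have h1 := pl_part hK hGEO (Nat.le_succ m) _ (hWi _ hb)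
      rw [Nat.succ_eq_add_one, Nat.Ico_succ_singleton, Finset.sum_singleton] at h1
      have hc1 : IntegrableOn (fun _ : ℂ => (1 : ℝ)) (Om K (m : ℝ) ((m + 1 : ℕ) : ℝ)) :=
        integrableOn_const hb.measure_lt_top.ne enorm_ne_top
      have hadd := integral_add (μ := volume.restrict (Om K (m : ℝ) ((m + 1 : ℕ) : ℝ)))
        (f := fun _ : ℂ => (1 : ℝ)) (g := fun s : ℂ => 1 / ‖1 - z * Complex.exp (-s)‖)
        hc1 (hRECI z _ hb)
      rw [← h1, hadd]
      have h2 := hxib K m z hK
      have h3 := hxib K m 0 hK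
      simp only [zero_mul, sub_zero, norm_one, div_one] at h3
      push_cast
      linarith
    have hE : ∑ m ∈ Finset.Ico T0 n, ∑ i ∈ Finset.range (LL K m),
        ∑ l ∈ Finset.range (LL K m), (C1 * dl K m + C1 / ∫ s in cell K m i l, G s) *
          ∫ s in cell K m i l, G s * Xi (pp K m i) (z * Complex.exp (-s)) ≤
        η τ * Real.exp (τ ^ K) := by
      calc _ ≤ ∑ m ∈ Finset.Ico T0 n, ∑ i ∈ Finset.range (LL K m),
            ∑ l ∈ Finset.range (LL K m),
            (2 * C1 * C3 / ε) * (dl K m + (LL K m : ℝ) ^ 2 * Real.exp (-(m : ℝ) ^ K)) *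
            ((m : ℝ) + 2) ^ (3 * K) * Real.exp (-(τ - m) ^ 2 / 4) * Real.exp (τ ^ K) *
            ∫ s in cell K m i l, (1 + 1 / ‖1 - z * Complex.exp (-s)‖) := by
            apply Finset.sum_le_sum
            intro m hm
            apply Finset.sum_le_sum
            intro i hi
            apply Finset.sum_le_sum
            intro l hl
            exact herr m hm i hi l hl
        _ = ∑ m ∈ Finset.Ico T0 n, 
            (2 * C1 * C3 / ε) * (dl K m + (LL K m : ℝ) ^ 2 * Real.exp (-(m : ℝ) ^ K)) *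
            ((m : ℝ) + 2) ^ (3 * K) * Real.exp (-(τ - m) ^ 2 / 4) * Real.exp (τ ^ K) *
            ∑ i ∈ Finset.range (LL K m), ∑ l ∈ Finset.range (LL K m),
            ∫ s in cell K m i l, (1 + 1 / ‖1 - z * Complex.exp (-s)‖) := by
            apply Finset.sum_congr rfl
            intro m _
            rw [Finset.mul_sum]
            apply Finset.sum_congr rfl
            intro i _
            rw [Finset.mul_sum]
        _ ≤ ∑ m ∈ Finset.Ico T0 n, 
            (2 * C1 * C3 / ε) * (dl K m + (LL K m : ℝ) ^ 2 * Real.exp (-(m : ℝ) ^ K)) *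
            ((m : ℝ) + 2) ^ (3 * K) * Real.exp (-(τ - m) ^ 2 / 4) * Real.exp (τ ^ K) *
            (2 * C2) := by
            apply Finset.sum_le_sum
            intro m hm
            apply mul_le_mul_of_nonneg_left (hshell m hm)
            have := hdl m
            positivity
        _ = (∑ m ∈ Finset.Ico T0 n, 2 * C1 * C3 / ε * (2 * C2) *
              (dl K m + (LL K m : ℝ) ^ 2 * Real.exp (-(m : ℝ) ^ K)) *
              ((m : ℝ) + 2) ^ (3 * K) * Real.exp (-(τ - m) ^ 2 / 4)) * Real.exp (τ ^ K) := by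
            rw [Finset.sum_mul]
            apply Finset.sum_congr rfl
            intro m _
            ring
        _ ≤ η τ * Real.exp (τ ^ K) :=
            mul_le_mul_of_nonneg_right (hηs τ _) (Real.exp_pos _).le
    have hmain : (1 / (2 * Real.pi)) *
        ∫ s in Om K T0 n, rho K s.re * Real.log ‖1 - z * Complex.exp (-s)‖ ≤
        Real.exp (τ ^ K) := by
      rw [hRAD1 K T0 n z hK hT0 hn hzne, ← hτ]
      exact hRAD2 K T0 n τ hK hT0 hn (by linarith)
    have hGpart := pl_part hK hGEO hn _ hGL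
    -- the product of the wells
    have hw : ‖∏ j ∈ WW K T0 n, (1 - z * Complex.exp (-sj K j)) ^ (mj K R ε j)‖ ≤
        Real.exp (∑ j ∈ WW K T0 n, (mj K R ε j : ℝ) * ((1 / (2 * R ^ 2 * ej K j)) *
      ((1 / (2 * Real.pi)) *
        ∫ s in DD K R j, den K j s.re * Real.log ‖1 - z * Complex.exp (-s)‖))) := by
      rw [norm_prod, Real.exp_sum]
      apply Finset.prod_le_prod
      · intro j _
        exact norm_nonneg _
      · intro j hj
        have hj1 : 1 ≤ j := by
          apply pl_tj_pos hK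
          have := (Finset.mem_filter.mp hj).2.1
          linarith
        rw [norm_pow, Real.exp_nat_mul]
        exact pow_le_pow_left₀ (norm_nonneg _) (hWELL K R j z hK hR hR1 hj1) _
    have hc : ‖∏ m ∈ Finset.Ico T0 n, ∏ i ∈ Finset.range (LL K m),
        ∏ l ∈ Finset.range (LL K m), F m i l z‖ ≤
        Real.exp (∑ m ∈ Finset.Ico T0 n, ∑ i ∈ Finset.range (LL K m),
        ∑ l ∈ Finset.range (LL K m), 
        ((∫ s in cell K m i l, G s * Real.log ‖1 - z * Complex.exp (-s)‖) +
        (C1 * dl K m + C1 / ∫ s in cell K m i l, G s) *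
          ∫ s in cell K m i l, G s * Xi (pp K m i) (z * Complex.exp (-s)))) := by
      rw [norm_prod, Real.exp_sum]
      apply Finset.prod_le_prod
      · intro j _
        exact norm_nonneg _
      intro m hm
      rw [norm_prod, Real.exp_sum]
      apply Finset.prod_le_prod
      · intro j _
        exact norm_nonneg _
      intro i hi
      rw [norm_prod, Real.exp_sum]
      apply Finset.prod_le_prod
      · intro j _
        exact norm_nonneg _
      intro l hl
      exact hFb m i l hm hi hl z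
    have hsumsplit : (∑ m ∈ Finset.Ico T0 n, ∑ i ∈ Finset.range (LL K m),
        ∑ l ∈ Finset.range (LL K m), 
        ((∫ s in cell K m i l, G s * Real.log ‖1 - z * Complex.exp (-s)‖) +
        (C1 * dl K m + C1 / ∫ s in cell K m i l, G s) *
          ∫ s in cell K m i l, G s * Xi (pp K m i) (z * Complex.exp (-s)))) =
        (∑ m ∈ Finset.Ico T0 n, ∑ i ∈ Finset.range (LL K m),
        ∑ l ∈ Finset.range (LL K m), 
        (∫ s in cell K m i l, G s * Real.log ‖1 - z * Complex.exp (-s)‖)) +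
        (∑ m ∈ Finset.Ico T0 n, ∑ i ∈ Finset.range (LL K m),
        ∑ l ∈ Finset.range (LL K m), (C1 * dl K m + C1 / ∫ s in cell K m i l, G s) *
          ∫ s in cell K m i l, G s * Xi (pp K m i) (z * Complex.exp (-s))) := by
      simp only [Finset.sum_add_distrib]
    rw [hsumsplit, ← hGpart] at hc
    simp only [hf]
    rw [norm_mul]
    refine (mul_le_mul hw hc (norm_nonneg _) (Real.exp_pos _).le).trans ?_
    rw [← Real.exp_add]
    unfold bd
    rw [← hτ]
    apply Real.exp_le_exp.mpr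
    linarith [hsplit, hmain, hE]
  · intro j h1 h2
    have hj := pl_mem_WW hK h1 h2
    refine ⟨fun z => (-Complex.exp (-sj K j)) ^ (mj K R ε j) *
      ((∏ j' ∈ (WW K T0 n).erase j, (1 - z * Complex.exp (-sj K j')) ^ (mj K R ε j')) *
      ∏ m ∈ Finset.Ico T0 n, ∏ i ∈ Finset.range (LL K m), ∏ l ∈ Finset.range (LL K m),
      F m i l z), ?_, ?_⟩
    · exact ((hdW _).mul hdP).const_mul _
    · intro z
      simp only [hf]
      rw [← Finset.mul_prod_erase _ _ hj]
      have h3 : (1 - z * Complex.exp (-sj K j)) ^ (mj K R ε j) =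
          (z - Complex.exp (sj K j)) ^ (mj K R ε j) *
            (-Complex.exp (-sj K j)) ^ (mj K R ε j) := by
        rw [← mul_pow]
        congr 1
        have h4 : Complex.exp (sj K j) * Complex.exp (-sj K j) = 1 := by
          rw [← Complex.exp_add, add_neg_cancel, Complex.exp_zero]
        linear_combination (-1 : ℂ) * h4
      rw [h3]
      ring

end Pool.Agent.W646.CI
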