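import Pool.Agent.W646.CI.Stm

/-!
# Auxiliary facts for the assembly of the approximating functions.
-/

set_option autoImplicit false

namespace Pool.Agent.W646.CI

open MeasureTheory Filter Topology Set

lemma pl_rho_pos {K : ℕ} (hK : 3 ≤ K) {a : ℝ} (ha : 0 < a) : 0 < rho K a := by
  unfold rho
  have hK' : (3 : ℝ) ≤ K := by exact_mod_cast hK
  apply mul_pos _ (Real.exp_pos _)
  have h1 : 0 < (K * a ^ (K - 1) : ℝ) := by positivity
  have h2 : 0 ≤ (K : ℝ) * (K - 1) * a ^ (K - 2) := by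
    apply mul_nonneg (mul_nonneg (by linarith) (by linarith)) (by positivity)
  nlinarith [sq_nonneg ((K : ℝ) * a ^ (K - 1)), pow_pos h1 2]

lemma pl_rho_mono {K : ℕ} (hK : 3 ≤ K) {a b : ℝ} (ha : 0 ≤ a) (hab : a ≤ b) :
    rho K a ≤ rho K b := by
  unfold rho
  have hK' : (3 : ℝ) ≤ K := by exact_mod_cast hK
  have h1 : a ^ (K - 1) ≤ b ^ (K - 1) := pow_le_pow_left₀ ha hab _
  have h2 : a ^ (K - 2) ≤ b ^ (K - 2) := pow_le_pow_left₀ ha hab _
  have h3 : a ^ K ≤ b ^ K := pow_le_pow_left₀ ha hab _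
  have h4 : 0 ≤ (K : ℝ) * (K - 1) := mul_nonneg (by linarith) (by linarith)
  have hb : 0 ≤ b := ha.trans hab
  apply mul_le_mul _ (Real.exp_le_exp.mpr h3) (Real.exp_pos _).le
  · exact add_nonneg (by positivity) (mul_nonneg h4 (by positivity))
  · apply add_le_add
    · exact pow_le_pow_left₀ (by positivity) (mul_le_mul_of_nonneg_left h1 (by linarith)) 2
    · exact mul_le_mul_of_nonneg_left h2 h4

lemma pl_rho_cont (K : ℕ) : Continuous (rho K) := by
  unfold rho
  fun_prop

lemma pl_den_cont (K j : ℕ) : Continuous (den K j) := by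
  unfold den
  fun_prop

lemma pl_DD_meas (K : ℕ) (R : ℝ) (j : ℕ) : MeasurableSet (DD K R j) := by
  have h1 : MeasurableSet {s : ℂ | |s.im - 8 * Real.sqrt j| < Real.pi / lj K j} :=
    measurableSet_lt (by fun_prop) (by fun_prop)
  have h2 : MeasurableSet {s : ℂ |
      ‖Complex.exp (((lj K j / 2 : ℝ) : ℂ) * (s - sj K j)) - 1‖ < R} :=
    measurableSet_lt (by fun_prop) (by fun_prop)
  exact h1.inter h2

lemma pl_Om_bdd {K : ℕ} {a b : ℝ} (ha : 0 ≤ a) : Bornology.IsBounded (Om K a b) := by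
  rw [isBounded_iff_forall_norm_le]
  refine ⟨|b| + (Real.pi + 8 * |b| ^ (K - 1)), ?_⟩
  rintro s ⟨h1, h2, h3, h4⟩
  have hre : |s.re| ≤ |b| := by
    rw [abs_of_nonneg (ha.trans h1)]
    exact h2.le.trans (le_abs_self b)
  have hp : 0 ≤ s.re ^ (K - 1) := pow_nonneg (ha.trans h1) _
  have hp2 : s.re ^ (K - 1) ≤ |b| ^ (K - 1) :=
    pow_le_pow_left₀ (ha.trans h1) (h2.le.trans (le_abs_self b)) _
  have him : |s.im| ≤ Real.pi + 8 * |b| ^ (K - 1) := by
    rw [abs_le]
    have := Real.pi_pos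
    constructor <;> nlinarith
  calc ‖s‖ ≤ |s.re| + |s.im| := Complex.norm_le_abs_re_add_abs_im s
    _ ≤ _ := add_le_add hre him

lemma pl_Om_meas {K : ℕ} {a b : ℝ} : MeasurableSet (Om K a b) := by
  have h1 : MeasurableSet {s : ℂ | a ≤ s.re} := measurableSet_le (by fun_prop) (by fun_prop)
  have h2 : MeasurableSet {s : ℂ | s.re < b} := measurableSet_lt (by fun_prop) (by fun_prop)
  have h3 : MeasurableSet {s : ℂ | -Real.pi ≤ s.im - 8 * s.re ^ (K - 1)} :=
    measurableSet_le (by fun_prop) (by fun_prop)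
  have h4 : MeasurableSet {s : ℂ | s.im - 8 * s.re ^ (K - 1) < Real.pi} :=
    measurableSet_lt (by fun_prop) (by fun_prop)
  exact h1.inter (h2.inter (h3.inter h4))

lemma pl_tj_pos {K j : ℕ} (hK : 3 ≤ K) (h : 0 < tj K j) : 1 ≤ j := by
  rcases Nat.eq_zero_or_pos j with h0 | h0
  · exfalso
    subst h0
    unfold tj at h
    have hK' : (3 : ℝ) ≤ K := by exact_mod_cast hK
    rw [Nat.cast_zero, Real.zero_rpow] at h
    · exact lt_irrefl _ h
    · apply div_ne_zero one_ne_zero
      linarith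
  · exact h0

lemma pl_tj_pow {K j : ℕ} (hK : 3 ≤ K) : tj K j ^ (2 * K - 2) = j := by
  unfold tj
  have hK' : (3 : ℝ) ≤ K := by exact_mod_cast hK
  rw [← Real.rpow_natCast, ← Real.rpow_mul (Nat.cast_nonneg j)]
  have h1 : ((2 * K - 2 : ℕ) : ℝ) = 2 * K - 2 := by
    rw [Nat.cast_sub (by omega)]
    push_cast
    ring
  rw [h1]
  rw [one_div_mul_cancel (by linarith), Real.rpow_one]

lemma pl_mem_WW {K T0 n j : ℕ} (hK : 3 ≤ K) (h1 : (T0 : ℝ) + 1 ≤ tj K j)
    (h2 : tj K j ≤ (n : ℝ) - 1) : j ∈ WW K T0 n := by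
  unfold WW
  rw [Finset.mem_filter, Finset.mem_range]
  refine ⟨?_, h1, h2⟩
  have h0 : 0 < tj K j := by
    have := Nat.cast_nonneg (α := ℝ) T0
    linarith
  have h3 : (j : ℝ) < ((n ^ (2 * K - 2) : ℕ) : ℝ) := by
    rw [← pl_tj_pow hK (j := j)]
    push_cast
    exact pow_lt_pow_left₀ (by linarith) h0.le (by omega)
  exact_mod_cast h3

lemma pl_part {K : ℕ} (hK : 3 ≤ K) (hGEO : S_GEO) {T0 n : ℕ} (h : T0 ≤ n) (φ : ℂ → ℝ)
    (hφ : IntegrableOn φ (Om K T0 n)) :
    ∫ s in Om K T0 n, φ s = ∑ m ∈ Finset.Ico T0 n, ∑ i ∈ Finset.range (LL K m),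
      ∑ l ∈ Finset.range (LL K m), ∫ s in cell K m i l, φ s := by
  obtain ⟨hm, hu, hd⟩ := hGEO K hK
  have hu' := hu T0 n h
  have hsub : ∀ m ∈ Finset.Ico T0 n, ∀ i ∈ Finset.range (LL K m), ∀ l ∈ Finset.range (LL K m),
      cell K m i l ⊆ Om K T0 n := by
    intro m hm' i hi l hl
    rw [hu']
    intro s hs
    simp only [mem_iUnion]
    exact ⟨m, hm', i, hi, l, hl, hs⟩
  have hml : ∀ m i : ℕ, MeasurableSet (⋃ l ∈ Finset.range (LL K m), cell K m i l) := fun m i =>
    Finset.measurableSet_biUnion _ (fun l _ => hm m i l)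
  have hmil : ∀ m : ℕ, MeasurableSet (⋃ i ∈ Finset.range (LL K m),
      ⋃ l ∈ Finset.range (LL K m), cell K m i l) := fun m =>
    Finset.measurableSet_biUnion _ (fun i _ => hml m i)
  rw [hu', integral_biUnion_finset]
  · apply Finset.sum_congr rfl
    intro m hm'
    rw [integral_biUnion_finset]
    · apply Finset.sum_congr rfl
      intro i hi
      rw [integral_biUnion_finset]
      · intro l _
        exact hm m i l
      · intro l hl l' hl' hne
        exact hd m i l m i l' (Finset.mem_range.mp hi) (Finset.mem_range.mp hl)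
          (Finset.mem_range.mp hi) (Finset.mem_range.mp hl') (by
            intro h'
            apply hne
            simpa using h')
      · intro l hl
        exact hφ.mono_set (hsub m hm' i hi l hl)
    · intro i _
      exact hml m i
    · intro i hi i' hi' hne
      rw [Function.onFun, Set.disjoint_left]
      intro s hs hs'
      simp only [mem_iUnion, Finset.mem_range] at hs hs'
      obtain ⟨l, hl, hs⟩ := hs
      obtain ⟨l', hl', hs'⟩ := hs'
      exact Set.disjoint_left.mp (hd m i l m i' l' (Finset.mem_range.mp hi) hl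
          (Finset.mem_range.mp hi') hl' (by
            intro h'
            apply hne
            simp only [Prod.mk.injEq] at h'
            exact h'.2.1)) hs hs'
    · intro i hi
      apply hφ.mono_set
      simp only [iUnion_subset_iff]
      intro l hl
      exact hsub m hm' i hi l hl
  · intro m _
    exact hmil m
  · intro m hm1 m' hm2 hne
    rw [Function.onFun, Set.disjoint_left]
    intro s hs hs'
    simp only [mem_iUnion, Finset.mem_range] at hs hs'
    obtain ⟨i, hi, l, hl, hs⟩ := hs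
    obtain ⟨i', hi', l', hl', hs'⟩ := hs'
    exact Set.disjoint_left.mp (hd m i l m' i' l' hi hl hi' hl' (by
            intro h'
            apply hne
            simp only [Prod.mk.injEq] at h'
            exact h'.1)) hs hs'
  · intro m hm'
    apply hφ.mono_set
    simp only [iUnion_subset_iff]
    intro i hi l hl
    exact hsub m hm' i hi l hl

end Pool.Agent.W646.CI
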