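import Pool.Agent.W646.CI.PolyA

/-!
# The error of one cell.
-/

set_option autoImplicit false

namespace Pool.Agent.W646.CI

open MeasureTheory Filter Topology Set

lemma pl_gam {K : ℕ} {T : Set ℂ} {G : ℂ → ℝ} {ε L : ℝ} (hL : 0 < L) (hε : 0 < ε)
    (hT : MeasurableSet T) (hvol : volume T = ENNReal.ofReal (2 * Real.pi / L ^ 2))
    (hGi : IntegrableOn G T)
    (hlow : ∀ s ∈ T, ε / 2 * rho K s.re / (2 * Real.pi) ≤ G s)
    (hosc : ∀ s ∈ T, ∀ s' ∈ T, rho K s.re ≤ 2 * rho K s'.re) :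
    ∀ s ∈ T, ε * rho K s.re / (4 * L ^ 2) ≤ ∫ s in T, G s := by
  intro s hs
  have hpi := Real.pi_pos
  have h1 : ∀ s' ∈ T, ε * rho K s.re / (8 * Real.pi) ≤ G s' := by
    intro s' hs'
    refine le_trans ?_ (hlow s' hs')
    have h2 := hosc s hs s' hs'
    have h3 : ε / 2 * rho K s'.re / (2 * Real.pi) = ε * (2 * rho K s'.re) / (8 * Real.pi) := by
      field_simp
      ring
    rw [h3]
    gcongr
  calc ε * rho K s.re / (4 * L ^ 2) = ∫ s' in T, ε * rho K s.re / (8 * Real.pi) := by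
        rw [setIntegral_const, smul_eq_mul, measureReal_def, hvol,
          ENNReal.toReal_ofReal (by positivity)]
        field_simp
        ring
    _ ≤ ∫ s' in T, G s' := by
        apply setIntegral_mono_on _ hGi hT h1
        apply integrableOn_const
        · rw [hvol]
          exact ENNReal.ofReal_ne_top
        · exact enorm_ne_top

lemma pl_err {K p m : ℕ} {T : Set ℂ} {G : ℂ → ℝ} {ε L δ C1 C3 τ : ℝ} {z : ℂ}
    (hz : ‖z‖ = Real.exp τ) (hL : 0 < L) (hε : 0 < ε) (hε1 : ε ≤ 1 / 2) (hδ : 0 < δ)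
    (hC1 : 0 < C1) (hC3 : 0 < C3)
    (hT : MeasurableSet T) (hvol : volume T = ENNReal.ofReal (2 * Real.pi / L ^ 2))
    (hGi : IntegrableOn G T)
    (hlow : ∀ s ∈ T, ε / 2 * rho K s.re / (2 * Real.pi) ≤ G s)
    (hup : ∀ s ∈ T, G s ≤ rho K s.re / (2 * Real.pi))
    (hrho : ∀ s ∈ T, 0 < rho K s.re)
    (hosc : ∀ s ∈ T, ∀ s' ∈ T, rho K s.re ≤ 2 * rho K s'.re)
    (hX1 : ∀ s ∈ T, ((p : ℝ) + 2) * Real.exp (((p : ℝ) + 1) * (τ - s.re)) * rho K s.re ≤
      C3 * ((m : ℝ) + 2) ^ (3 * K) * Real.exp (τ ^ K - (τ - m) ^ 2 / 4))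
    (hX2 : ∀ s ∈ T, ((p : ℝ) + 2) * Real.exp (((p : ℝ) + 1) * (τ - s.re)) ≤
      C3 * ((m : ℝ) + 2) ^ (3 * K) * Real.exp (τ ^ K - (m : ℝ) ^ K - (τ - m) ^ 2 / 4))
    (hW : IntegrableOn (fun s : ℂ => 1 + 1 / ‖1 - z * Complex.exp (-s)‖) T) :
    (C1 * δ + C1 / ∫ s in T, G s) * ∫ s in T, G s * Xi p (z * Complex.exp (-s)) ≤
      (2 * C1 * C3 / ε) * (δ + L ^ 2 * Real.exp (-(m : ℝ) ^ K)) * ((m : ℝ) + 2) ^ (3 * K) *
        Real.exp (-(τ - m) ^ 2 / 4) * Real.exp (τ ^ K) *
        ∫ s in T, (1 + 1 / ‖1 - z * Complex.exp (-s)‖) := by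
  have hpi := Real.pi_pos
  have hpi1 : (1 : ℝ) ≤ Real.pi := by linarith [Real.pi_gt_three]
  have hgam := pl_gam hL hε hT hvol hGi hlow hosc
  set γ := ∫ s in T, G s with hγ
  rw [← integral_const_mul, ← integral_const_mul]
  have hG0 : ∀ s ∈ T, 0 ≤ G s := fun s hs =>
    le_trans (by have := hrho s hs; positivity) (hlow s hs)
  have hγ0 : 0 ≤ γ := by
    rw [hγ]
    exact setIntegral_nonneg hT hG0
  have hXi0 : ∀ s : ℂ, 0 ≤ Xi p (z * Complex.exp (-s)) := by
    intro s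
    unfold Xi
    positivity
  apply integral_mono_of_nonneg
  · apply ae_restrict_of_forall_mem hT
    intro s hs
    have h1 := hG0 s hs
    have h2 := hXi0 s
    simp only [Pi.zero_apply]
    positivity
  · exact hW.const_mul _
  · apply ae_restrict_of_forall_mem hT
    intro s hs
    simp only
    have hr := hrho s hs
    have hg0 := hG0 s hs
    have hgs := hgam s hs
    have hgpos : 0 < γ := lt_of_lt_of_le (by positivity) hgs
    have hu : ‖z * Complex.exp (-s)‖ ^ (p + 1) = Real.exp (((p : ℝ) + 1) * (τ - s.re)) := by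
      rw [norm_mul, hz, Complex.norm_exp, ← Real.exp_add, ← Real.exp_nat_mul]
      congr 1
      push_cast
      simp only [Complex.neg_re]
      ring
    set W : ℝ := 1 + 1 / ‖1 - z * Complex.exp (-s)‖ with hWdef
    have hW0 : 0 ≤ W := by positivity
    have hXi : Xi p (z * Complex.exp (-s)) =
        (((p : ℝ) + 2) * Real.exp (((p : ℝ) + 1) * (τ - s.re))) * W := by
      unfold Xi
      rw [hu]
    rw [hXi]
    have x1 := hX1 s hs
    have x2 := hX2 s hs
    set E : ℝ := ((p : ℝ) + 2) * Real.exp (((p : ℝ) + 1) * (τ - s.re)) with hE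
    have hE0 : 0 < E := by positivity
    set P : ℝ := C3 * ((m : ℝ) + 2) ^ (3 * K) * (Real.exp (τ ^ K) *
      Real.exp (-(τ - m) ^ 2 / 4)) with hP
    have hP0 : 0 < P := by positivity
    have e1 : Real.exp (τ ^ K - (τ - m) ^ 2 / 4) =
        Real.exp (τ ^ K) * Real.exp (-(τ - m) ^ 2 / 4) := by
      rw [← Real.exp_add]
      congr 1
      ring
    have e2 : Real.exp (τ ^ K - (m : ℝ) ^ K - (τ - m) ^ 2 / 4) =
        Real.exp (τ ^ K) * Real.exp (-(τ - m) ^ 2 / 4) * Real.exp (-(m : ℝ) ^ K) := by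
      rw [← Real.exp_add, ← Real.exp_add]
      congr 1
      ring
    rw [e1] at x1
    rw [e2] at x2
    have y1 : E * rho K s.re ≤ P := x1
    have y2 : E ≤ P * Real.exp (-(m : ℝ) ^ K) := by
      rw [hP]
      calc E ≤ _ := x2
        _ = _ := by ring
    have y3 : G s * E ≤ P / (2 * Real.pi) := by
      calc G s * E ≤ rho K s.re / (2 * Real.pi) * E :=
            mul_le_mul_of_nonneg_right (hup s hs) hE0.le
        _ = (E * rho K s.re) / (2 * Real.pi) := by ring
        _ ≤ P / (2 * Real.pi) := by gcongr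
    have y4 : G s / γ ≤ 2 / ε * L ^ 2 := by
      rw [div_le_iff₀ hgpos]
      calc G s ≤ rho K s.re / (2 * Real.pi) := hup s hs
        _ ≤ rho K s.re / 2 := by
            apply div_le_div_of_nonneg_left hr.le (by norm_num)
            linarith
        _ = 2 / ε * L ^ 2 * (ε * rho K s.re / (4 * L ^ 2)) := by
            field_simp
            ring
        _ ≤ 2 / ε * L ^ 2 * γ := by gcongr
    have y5 : C1 * δ * (G s * E) ≤ 2 * C1 / ε * P * δ := by
      have h1 : P / (2 * Real.pi) ≤ 2 / ε * P := by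
        rw [div_le_iff₀ (by positivity)]
        have h2 : 1 ≤ 2 / ε := by
          rw [le_div_iff₀ hε]
          linarith
        nlinarith [mul_le_mul h2 (le_refl P) hP0.le (by positivity),
          mul_pos (by positivity : 0 < 2 / ε) hP0]
      calc C1 * δ * (G s * E) ≤ C1 * δ * (2 / ε * P) := by
            apply mul_le_mul_of_nonneg_left (y3.trans h1) (by positivity)
        _ = 2 * C1 / ε * P * δ := by ring
    have y6 : C1 / γ * (G s * E) ≤ 2 * C1 / ε * P * (L ^ 2 * Real.exp (-(m : ℝ) ^ K)) := by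
      calc C1 / γ * (G s * E) = C1 * (G s / γ) * E := by ring
        _ ≤ C1 * (2 / ε * L ^ 2) * (P * Real.exp (-(m : ℝ) ^ K)) := by
            apply mul_le_mul _ y2 hE0.le (by positivity)
            exact mul_le_mul_of_nonneg_left y4 hC1.le
        _ = 2 * C1 / ε * P * (L ^ 2 * Real.exp (-(m : ℝ) ^ K)) := by ring
    calc (C1 * δ + C1 / γ) * (G s * (E * W))
        = (C1 * δ * (G s * E) + C1 / γ * (G s * E)) * W := by ring
      _ ≤ (2 * C1 / ε * P * δ + 2 * C1 / ε * P * (L ^ 2 * Real.exp (-(m : ℝ) ^ K))) * W :=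
          mul_le_mul_of_nonneg_right (add_le_add y5 y6) hW0
      _ = _ := by
          rw [hP]
          ring

end Pool.Agent.W646.CI
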